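import Pool.Agent.Q270.AA.Line

/-!
# Analytic functions of several variables which are not polynomials along the lines
-/

set_option autoImplicit false

namespace Pool.Agent.Q270.AA

open Finset Real Filter Topology

variable {n m : ℕ}

/-- the derivative in the direction of a coordinate -/
noncomputable def Dd (i1 : Fin n) (g : (Fin n → ℝ) → ℝ) (c : Fin n → ℝ) : ℝ :=
  fderiv ℝ g c (Pi.single i1 1)

/-- the iterated derivatives -/
noncomputable def Psi (i1 : Fin n) (Φ : Fin m → (Fin n → ℝ) → ℝ) (j : Fin m) (k : ℕ) :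
    (Fin n → ℝ) → ℝ := (Dd i1)^[k] (Φ j)

lemma Psi_zero (i1 : Fin n) (Φ : Fin m → (Fin n → ℝ) → ℝ) (j : Fin m) : Psi i1 Φ j 0 = Φ j := rfl

lemma Psi_succ (i1 : Fin n) (Φ : Fin m → (Fin n → ℝ) → ℝ) (j : Fin m) (k : ℕ) :
    Psi i1 Φ j (k + 1) = Dd i1 (Psi i1 Φ j k) := Function.iterate_succ_apply' _ _ _

lemma Psi_ana (i1 : Fin n) {Φ : Fin m → (Fin n → ℝ) → ℝ} {s : Set (Fin n → ℝ)}
    (h : ∀ j, AnalyticOnNhd ℝ (Φ j) s) (j : Fin m) (k : ℕ) : AnalyticOnNhd ℝ (Psi i1 Φ j k) s := by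
  induction k with
  | zero => exact h j
  | succ k ih =>
    rw [Psi_succ]
    intro c hc
    have h1 : AnalyticAt ℝ (fderiv ℝ (Psi i1 Φ j k)) c := (ih c hc).fderiv
    exact ((ContinuousLinearMap.apply ℝ ℝ (Pi.single i1 (1 : ℝ) : Fin n → ℝ)).analyticAt _).comp h1

lemma Psi_der (i1 : Fin n) {Φ : Fin m → (Fin n → ℝ) → ℝ} {s : Set (Fin n → ℝ)}
    (h : ∀ j, AnalyticOnNhd ℝ (Φ j) s) (j : Fin m) (k : ℕ) {c : Fin n → ℝ} (hc : c ∈ s) :
    HasDerivAt (fun t => Psi i1 Φ j k (Function.update c i1 t)) (Psi i1 Φ j (k + 1) c) (c i1) := by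
  have h1 : HasFDerivAt (Psi i1 Φ j k) (fderiv ℝ (Psi i1 Φ j k) c) c :=
    (Psi_ana i1 h j k c hc).differentiableAt.hasFDerivAt
  have h2 : HasDerivAt (Function.update c i1) (Pi.single i1 (1 : ℝ)) (c i1) :=
    hasDerivAt_update c i1 (c i1)
  have h3 : HasFDerivAt (Psi i1 Φ j k) (fderiv ℝ (Psi i1 Φ j k) c)
      (Function.update c i1 (c i1)) := by
    rw [Function.update_eq_self]
    exact h1
  have h4 := h3.comp_hasDerivAt (c i1) h2
  rw [Psi_succ]
  exact h4

/-- the derivatives along a line -/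
lemma line_deriv (i1 : Fin n) {Φ : Fin m → (Fin n → ℝ) → ℝ} {c0 : Fin n → ℝ} {r : ℝ}
    (h : ∀ j, AnalyticOnNhd ℝ (Φ j) (Metric.ball c0 r)) (u : Fin m → ℝ) (k : ℕ) :
    ∀ t : ℝ, |t - c0 i1| < r → iteratedDeriv k (fun t => ∑ j, u j * Φ j (Function.update c0 i1 t)) t =
      ∑ j, u j * Psi i1 Φ j k (Function.update c0 i1 t) := by
  have hmem : ∀ t : ℝ, |t - c0 i1| < r → Function.update c0 i1 t ∈ Metric.ball c0 r := by
    intro t ht
    rw [mem_ball_iff_norm, pi_norm_lt_iff (lt_of_le_of_lt (abs_nonneg _) ht)]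
    intro i
    rw [Pi.sub_apply]
    by_cases hi : i = i1
    · subst hi
      rw [Function.update_self]
      exact ht
    · rw [Function.update_of_ne hi, sub_self, norm_zero]
      exact lt_of_le_of_lt (abs_nonneg _) ht
  induction k with
  | zero =>
    intro t _
    rw [iteratedDeriv_zero]
    rfl
  | succ k ih =>
    intro t ht
    rw [iteratedDeriv_succ]
    have hopen : IsOpen {t : ℝ | |t - c0 i1| < r} := by
      have : Continuous fun t : ℝ => |t - c0 i1| := by fun_prop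
      exact isOpen_lt this continuous_const
    have h1 : iteratedDeriv k (fun t => ∑ j, u j * Φ j (Function.update c0 i1 t)) =ᶠ[𝓝 t]
        fun t => ∑ j, u j * Psi i1 Φ j k (Function.update c0 i1 t) := by
      filter_upwards [hopen.mem_nhds ht] with x hx
      exact ih x hx
    rw [h1.deriv_eq]
    have h2 : HasDerivAt (fun t => ∑ j, u j * Psi i1 Φ j k (Function.update c0 i1 t))
        (∑ j, u j * Psi i1 Φ j (k + 1) (Function.update c0 i1 t)) t := by
      refine HasDerivAt.fun_sum fun j _ => ?_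
      have h3 := Psi_der i1 h j k (hmem t ht)
      simp only [Function.update_idem, Function.update_self] at h3
      exact h3.const_mul _
    exact h2.deriv

/-- a high derivative does not vanish -/
lemma exists_deriv (i1 : Fin n) {Φ : Fin m → (Fin n → ℝ) → ℝ} {c0 : Fin n → ℝ} {r : ℝ} (hr : 0 < r)
    (h : ∀ j, AnalyticOnNhd ℝ (Φ j) (Metric.ball c0 r)) (u : Fin m → ℝ)
    (hnd : ∀ p : Polynomial ℝ, ¬ ∀ᶠ s in 𝓝 (c0 i1),
      ∑ j, u j * Φ j (Function.update c0 i1 s) = p.eval s) (K : ℕ) :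
    ∃ k, K ≤ k ∧ ∑ j, u j * Psi i1 Φ j k c0 ≠ 0 := by
  by_contra hcon
  push Not at hcon
  set G : ℝ → ℝ := fun t => ∑ j, u j * Φ j (Function.update c0 i1 t) with hG
  have hup : AnalyticAt ℝ (Function.update c0 i1) (c0 i1) := by
    have h1 : Function.update c0 i1 = fun t => c0 + (t - c0 i1) • (Pi.single i1 (1 : ℝ) :
        Fin n → ℝ) := by
      funext t i
      by_cases hi : i = i1
      · subst hi
        simp
      · simp [hi]
    rw [h1]
    fun_prop
  have hGa : AnalyticAt ℝ G (c0 i1) := by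
    rw [hG]
    refine Finset.analyticAt_fun_sum _ fun j _ => ?_
    have h2 : AnalyticAt ℝ (Φ j) (Function.update c0 i1 (c0 i1)) := by
      rw [Function.update_eq_self]
      exact h j c0 (Metric.mem_ball_self hr)
    exact analyticAt_const.mul (h2.comp hup)
  have h3 := hasFPowerSeriesAt_iff.1 hGa.hasFPowerSeriesAt
  have hco : ∀ k, K ≤ k → iteratedDeriv k G (c0 i1) = 0 := by
    intro k hk
    rw [hG, line_deriv i1 h u k (c0 i1) (by rw [sub_self, abs_zero]; exact hr),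
      Function.update_eq_self]
    exact hcon k hk
  refine hnd (∑ k ∈ range K, Polynomial.C (iteratedDeriv k G (c0 i1) / k.factorial) *
    (Polynomial.X - Polynomial.C (c0 i1)) ^ k) ?_
  have h4 : Tendsto (fun s : ℝ => s - c0 i1) (𝓝 (c0 i1)) (𝓝 0) := by
    have : ContinuousAt (fun s : ℝ => s - c0 i1) (c0 i1) := by fun_prop
    have h5 := this.tendsto
    rwa [sub_self] at h5
  filter_upwards [h4.eventually h3] with s hs
  have h5 : HasSum (fun k => (s - c0 i1) ^ k •
      (FormalMultilinearSeries.ofScalars ℝ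
        (fun n => iteratedDeriv n G (c0 i1) / (n.factorial : ℝ))).coeff k)
      (∑ k ∈ range K, (s - c0 i1) ^ k •
        (FormalMultilinearSeries.ofScalars ℝ
          (fun n => iteratedDeriv n G (c0 i1) / (n.factorial : ℝ))).coeff k) := by
    refine hasSum_sum_of_ne_finset_zero fun k hk => ?_
    have hk' : K ≤ k := by
      rw [mem_range] at hk
      omega
    rw [FormalMultilinearSeries.coeff_ofScalars, hco k hk']
    simp
  have h6 := hs.unique h5
  rw [show c0 i1 + (s - c0 i1) = s by ring] at h6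
  change G s = _
  rw [h6, Polynomial.eval_finsetSum]
  refine sum_congr rfl fun k _ => ?_
  rw [FormalMultilinearSeries.coeff_ofScalars]
  simp only [smul_eq_mul, Polynomial.eval_mul, Polynomial.eval_C, Polynomial.eval_pow,
    Polynomial.eval_sub, Polynomial.eval_X]
  ring

/-- the derivatives on a small cube -/
theorem exists_chain (i1 : Fin n) {Φ : Fin m → (Fin n → ℝ) → ℝ} {c0 : Fin n → ℝ}
    (hΦ : ∀ j, AnalyticAt ℝ (Φ j) c0)
    (hnd : ∀ u : Fin m → ℝ, u ≠ 0 → ∀ p : Polynomial ℝ, ¬ ∀ᶠ s in 𝓝 (c0 i1),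
      ∑ j, u j * Φ j (Function.update c0 i1 s) = p.eval s) (K : ℕ) (δ1 : ℝ) (hδ1 : 0 < δ1) :
    ∃ δ : ℝ, 0 < δ ∧ δ ≤ δ1 ∧ Chain i1 c0 δ K (Psi i1 Φ) := by
  obtain ⟨r, hr, hr2⟩ : ∃ r : ℝ, 0 < r ∧ ∀ j, AnalyticOnNhd ℝ (Φ j) (Metric.ball c0 r) := by
    have h1 : ∀ᶠ c in 𝓝 c0, ∀ j, AnalyticAt ℝ (Φ j) c :=
      Filter.eventually_all.2 fun j => (hΦ j).eventually_analyticAt
    obtain ⟨r, hr, h2⟩ := Metric.eventually_nhds_iff_ball.1 h1
    exact ⟨r, hr, fun j c hc => h2 c hc j⟩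
  have hin : ∀ {δ : ℝ}, 0 ≤ δ → ∀ {c : Fin n → ℝ}, InC c0 δ c → dist c c0 ≤ δ := by
    intro δ hδ c hc
    rw [dist_pi_le_iff hδ]
    intro i
    rw [Real.dist_eq]
    exact hc i
  -- compactness of the sphere
  have hkey : ∃ (F : Finset ℕ) (η δ : ℝ), 0 < η ∧ 0 < δ ∧ (∀ i ∈ F, K ≤ i) ∧
      ∀ u ∈ Metric.sphere (0 : Fin m → ℝ) 1, ∃ i ∈ F, ∀ c, InC c0 δ c →
        η ≤ |∑ j, u j * Psi i1 Φ j i c| := by
    refine (isCompact_sphere (0 : Fin m → ℝ) 1).induction_on
      (p := fun s => ∃ (F : Finset ℕ) (η δ : ℝ), 0 < η ∧ 0 < δ ∧ (∀ i ∈ F, K ≤ i) ∧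
      ∀ u ∈ s, ∃ i ∈ F, ∀ c, InC c0 δ c → η ≤ |∑ j, u j * Psi i1 Φ j i c|) ?_ ?_ ?_ ?_
    · exact ⟨∅, 1, 1, one_pos, one_pos, by simp, by simp⟩
    · rintro s t hst ⟨F, η, δ, h1, h2, h3, h4⟩
      exact ⟨F, η, δ, h1, h2, h3, fun u hu => h4 u (hst hu)⟩
    · rintro s t ⟨F, η, δ, h1, h2, h3, h4⟩ ⟨F', η', δ', h1', h2', h3', h4'⟩
      refine ⟨F ∪ F', min η η', min δ δ', lt_min h1 h1', lt_min h2 h2', ?_, ?_⟩
      · intro i hi
        rcases Finset.mem_union.1 hi with h | h
        · exact h3 i h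
        · exact h3' i h
      · rintro u (hu | hu)
        · obtain ⟨i, hi, hi2⟩ := h4 u hu
          exact ⟨i, Finset.mem_union_left _ hi, fun c hc => (min_le_left _ _).trans
            (hi2 c fun j => (hc j).trans (min_le_left _ _))⟩
        · obtain ⟨i, hi, hi2⟩ := h4' u hu
          exact ⟨i, Finset.mem_union_right _ hi, fun c hc => (min_le_right _ _).trans
            (hi2 c fun j => (hc j).trans (min_le_right _ _))⟩
    · intro u hu
      have hu0 : u ≠ 0 := by
        rintro rfl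
        simp at hu
      obtain ⟨k, hk, hk0⟩ := exists_deriv i1 hr hr2 u (hnd u hu0) K
      set f : (Fin m → ℝ) × (Fin n → ℝ) → ℝ := fun x => ∑ j, x.1 j * Psi i1 Φ j k x.2 with hf
      have hfc : ContinuousAt f (u, c0) := by
        have h1 : ∀ j, ContinuousAt (fun x : (Fin m → ℝ) × (Fin n → ℝ) =>
            x.1 j * Psi i1 Φ j k x.2) (u, c0) := by
          intro j
          have h2 : ContinuousAt (Psi i1 Φ j k) c0 :=
            (Psi_ana i1 hr2 j k c0 (Metric.mem_ball_self hr)).continuousAt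
          have h3 : ContinuousAt (fun x : (Fin m → ℝ) × (Fin n → ℝ) => Psi i1 Φ j k x.2)
              (u, c0) := ContinuousAt.comp (f := Prod.snd) h2 continuousAt_snd
          have h4 : ContinuousAt (fun x : (Fin m → ℝ) × (Fin n → ℝ) => x.1 j) (u, c0) :=
            ((continuous_apply j).comp continuous_fst).continuousAt
          exact h4.mul h3
        rw [hf]
        exact tendsto_finsetSum _ fun j _ => h1 j
      have hf0 : 0 < |f (u, c0)| := abs_pos.2 hk0
      have hev : ∀ᶠ x in 𝓝 (u, c0), |f (u, c0)| / 2 ≤ |f x| := by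
        have := hfc.abs.eventually (lt_mem_nhds (show |f (u, c0)| / 2 < |f (u, c0)| by linarith))
        exact this.mono fun x hx => le_of_lt hx
      rw [nhds_prod_eq, Filter.eventually_prod_iff] at hev
      obtain ⟨pa, hpa, pb, hpb, hpab⟩ := hev
      obtain ⟨δ, hδ, hδ2⟩ := Metric.eventually_nhds_iff.1 hpb
      refine ⟨{v | pa v}, nhdsWithin_le_nhds hpa, {k}, |f (u, c0)| / 2, δ / 2, by positivity,
        by positivity, by simpa using hk, ?_⟩
      intro v hv
      refine ⟨k, Finset.mem_singleton_self k, fun c hc => ?_⟩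
      exact hpab hv (hδ2 (lt_of_le_of_lt (hin (by positivity) hc) (by linarith)))
  obtain ⟨F, η, δ', hη, hδ', hFK, hbig⟩ := hkey
  set δ : ℝ := min (min δ' (r / 2)) δ1 with hδdef
  have hδ0 : 0 < δ := lt_min (lt_min hδ' (by positivity)) hδ1
  have hδδ' : δ ≤ δ' := (min_le_left _ _).trans (min_le_left _ _)
  have hδr : δ ≤ r / 2 := (min_le_left _ _).trans (min_le_right _ _)
  have hball : ∀ c, InC c0 δ c → c ∈ Metric.ball c0 r := by
    intro c hc
    rw [Metric.mem_ball]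
    exact lt_of_le_of_lt (hin hδ0.le hc) (by linarith)
  refine ⟨δ, hδ0, min_le_right _ _, ⟨fun j k c hc => Psi_der i1 hr2 j k (hball c hc), ?_, ?_⟩⟩
  · intro k
    have hcpt : IsCompact (Metric.closedBall c0 δ) := isCompact_closedBall _ _
    have h1 : ∀ j, ∃ C, ∀ c ∈ Metric.closedBall c0 δ, |Psi i1 Φ j k c| ≤ C := by
      intro j
      have h2 : ContinuousOn (Psi i1 Φ j k) (Metric.closedBall c0 δ) := fun c hc =>
        (Psi_ana i1 hr2 j k c (by
          rw [Metric.mem_closedBall] at hc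
          rw [Metric.mem_ball]
          linarith)).continuousAt.continuousWithinAt
      obtain ⟨C, hC⟩ := hcpt.exists_bound_of_continuousOn h2
      exact ⟨C, fun c hc => hC c hc⟩
    choose C hC using h1
    refine ⟨∑ j, |C j|, fun j c hc => ?_⟩
    refine (hC j c (Metric.mem_closedBall.2 (hin hδ0.le hc))).trans ((le_abs_self _).trans ?_)
    exact Finset.single_le_sum (f := fun j => |C j|) (fun j _ => abs_nonneg _) (mem_univ j)
  · refine ⟨F, η, hη, hFK, fun u hu => ?_⟩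
    obtain ⟨i, hi, hi2⟩ := hbig u (by rw [mem_sphere_zero_iff_norm]; exact hu)
    exact ⟨i, hi, fun c hc => hi2 c fun j => (hc j).trans hδδ'⟩

end Pool.Agent.Q270.AA
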