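import Pool.Agent.Q270.AA.Line
import Pool.Agent.Q270.AA.Str
import Pool.Agent.Q270.PX.Dioph0

/-!
# Values of functions of several variables at the integer points of a large box
-/

set_option autoImplicit false

namespace Pool.Agent.Q270.AA

open Finset Real Filter Topology MeasureTheory
open Pool.Agent.H469R2.NK (e norm_e e_add)
open Pool.Agent.TH419.WI (Smooth)
open Pool.Agent.Y951.TU (hat lin lin_apply unif unif_prob integral_unif)
open Pool.Agent.Q270.PX (FrS dioph_ne)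

variable {n m : ℕ}

/-- summation over lines in a box -/
lemma box_lines (J : Fin n → Finset ℤ) (i1 : Fin n) (f : (Fin n → ℤ) → ℂ) :
    ∑ a ∈ Fintype.piFinset J, ∑ t ∈ J i1, f (Function.update a i1 t) =
      ((J i1).card : ℂ) * ∑ a ∈ Fintype.piFinset J, f a := by
  classical
  rw [← Finset.sum_product', Finset.mul_sum]
  have h1 : ∑ a ∈ Fintype.piFinset J, ((J i1).card : ℂ) * f a =
      ∑ x ∈ Fintype.piFinset J ×ˢ J i1, f x.1 := by
    rw [Finset.sum_product]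
    refine sum_congr rfl fun a _ => ?_
    simp only [sum_const, nsmul_eq_mul]
  rw [h1]
  have hmem : ∀ x : (Fin n → ℤ) × ℤ, x ∈ Fintype.piFinset J ×ˢ J i1 →
      (Function.update x.1 i1 x.2, x.1 i1) ∈ Fintype.piFinset J ×ˢ J i1 := by
    rintro ⟨a, t⟩ hx
    simp only [Finset.mem_product, Fintype.mem_piFinset] at hx ⊢
    refine ⟨fun i => ?_, hx.1 i1⟩
    by_cases hi : i = i1
    · subst hi
      rw [Function.update_self]
      exact hx.2
    · rw [Function.update_of_ne hi]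
      exact hx.1 i
  refine Finset.sum_nbij' (fun x => (Function.update x.1 i1 x.2, x.1 i1))
    (fun x => (Function.update x.1 i1 x.2, x.1 i1)) hmem hmem ?_ ?_ ?_
  · rintro ⟨a, t⟩ _
    simp
  · rintro ⟨a, t⟩ _
    simp
  · rintro ⟨a, t⟩ _
    rfl

/-- the boxes -/
structure BoxI (i1 : Fin n) (c0 : Fin n → ℝ) (δ γ : ℝ) (M : ℕ) (J : Fin n → Finset ℤ) : Prop where
  mem : ∀ i, ∀ t ∈ J i, |(t : ℝ) / M - c0 i| ≤ δ
  ne : ∀ i, (J i).Nonempty
  line : ∃ (p : ℤ) (ℓ : ℕ), J i1 = Finset.Ico p (p + ℓ) ∧ ℓ ≤ M ∧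
    |((p : ℝ) + ℓ) / M - c0 i1| ≤ δ ∧ γ * M ≤ ℓ

/-- the measures -/
def SB (i1 : Fin n) (c0 : Fin n → ℝ) (δ γ W : ℝ) (ψ : Fin m → ℕ → (Fin n → ℝ) → ℝ) (M : ℕ) :
    Set (Measure (Fin m → ℝ)) :=
  {μ | ∃ (J : Fin n → Finset ℤ) (ω v : Fin m → ℝ), BoxI i1 c0 δ γ M J ∧
    (∀ j, 1 ≤ |ω j| ∧ |ω j| ≤ (M : ℝ) ^ W) ∧
    μ = unif (Fintype.piFinset J) (fun a j => ω j * ψ j 0 (fun i => (a i : ℝ) / M) + v j)}

lemma SB_prob (i1 : Fin n) (c0 : Fin n → ℝ) (δ γ W : ℝ) (ψ : Fin m → ℕ → (Fin n → ℝ) → ℝ) (M : ℕ)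
    (_hM : 1 ≤ M) (μ : Measure (Fin m → ℝ)) (hμ : μ ∈ SB i1 c0 δ γ W ψ M) :
    IsProbabilityMeasure μ := by
  obtain ⟨J, ω, v, hJ, _, rfl⟩ := hμ
  exact unif_prob (Fintype.piFinset_nonempty.2 hJ.ne) _

theorem good_box {i1 : Fin n} {c0 : Fin n → ℝ} {δ : ℝ} {K : ℕ}
    {ψ : Fin m → ℕ → (Fin n → ℝ) → ℝ} (H : Chain i1 c0 δ K ψ) (γ W κ A : ℝ) (hγ : 0 < γ)
    (hW : 0 ≤ W) (hκ : 0 < κ) (hA : 0 ≤ A) (hK : A + W + 4 ≤ K) :
    GoodB m (SB i1 c0 δ γ W ψ) κ A := by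
  classical
  intro Sm hSm k
  obtain ⟨ρ, hρ, M1, hM1⟩ := line_sum H (κ / 2) (A + W + 2) (by positivity) (by
    have : (3 : ℝ) ≤ K := by linarith
    exact_mod_cast this) (by linarith)
  obtain ⟨η1, hη1, L1, hL1⟩ := dioph_ne (r := 1) (fun _ => (1 : ℝ)) (fun _ => isAlgebraic_one) Sm
    hSm k A (κ / 2) hA (by positivity)
  set ρ1 : ℝ := min ρ 1 with hρ1
  have hρ10 : 0 < ρ1 := lt_min hρ one_pos
  set η : ℝ := min (min η1 1) (ρ1 / 2) with hη
  have hη0 : 0 < η := lt_min (lt_min hη1 one_pos) (by positivity)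
  have hηη1 : η ≤ η1 := (min_le_left _ _).trans (min_le_left _ _)
  have hη11 : η ≤ 1 := (min_le_left _ _).trans (min_le_right _ _)
  have hηρ : η ≤ ρ1 / 2 := min_le_right _ _
  have hlog : Tendsto (fun M : ℕ => log (M : ℝ)) atTop atTop :=
    Real.tendsto_log_atTop.comp tendsto_natCast_atTop_atTop
  have hcast : Tendsto (fun M : ℕ => (M : ℝ)) atTop atTop := tendsto_natCast_atTop_atTop
  have hev : ∀ᶠ M : ℕ in atTop, M1 ≤ M ∧ L1 ≤ log (M : ℝ) ∧ (k : ℝ) ≤ M ∧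
      1 / γ ≤ (M : ℝ) ^ (ρ1 / 2) ∧ (1 : ℝ) ≤ M := by
    filter_upwards [eventually_ge_atTop M1, hlog.eventually_ge_atTop L1,
      hcast.eventually_ge_atTop (k : ℝ),
      ((tendsto_rpow_atTop (show (0 : ℝ) < ρ1 / 2 by positivity)).comp hcast).eventually_ge_atTop
        (1 / γ), hcast.eventually_ge_atTop 1] with M a1 a2 a3 a4 a5
    exact ⟨a1, a2, a3, a4, a5⟩
  obtain ⟨M0, hM0⟩ := eventually_atTop.1 hev
  refine ⟨η, hη0, M0, ?_⟩
  intro M hM μ hμ qq hqq h hh hne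
  obtain ⟨J, ω, v, hJ, hω, rfl⟩ := hμ
  obtain ⟨b1, b2, b3, b4, b5⟩ := hM0 M hM
  have hMp : (0 : ℝ) < M := by linarith
  have hexpM : ∀ a : ℝ, Real.exp (a * log (M : ℝ)) = (M : ℝ) ^ a := fun a => by
    rw [Real.rpow_def_of_pos hMp, mul_comm]
  choose s jj hs1 hs2 hs3 hs4 using hqq
  set c : Fin k → Fin m → ℤ := fun i => Pi.single (jj i) 1 with hc
  set l : Fin m → ℤ := ∑ i, h i • qq i with hl
  have hlj : ∀ j, l j = ∑ i, h i * (s i * c i j) := by
    intro j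
    rw [hl, Finset.sum_apply]
    refine sum_congr rfl fun i _ => ?_
    rw [Pi.smul_apply, hs4 i, smul_eq_mul]
  have hcabs : ∀ i j, |(c i j : ℝ)| ≤ 1 := by
    intro i j
    rw [hc]
    simp only [Pi.single_apply]
    split_ifs <;> simp
  have hk : Nonempty (Fin k) := by
    by_contra hcon
    rw [not_nonempty_iff] at hcon
    apply hne
    rw [hl]
    exact Finset.sum_of_isEmpty _
  obtain ⟨i0, -, hi0⟩ := Finset.exists_min_image univ s (univ_nonempty (α := Fin k))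
  obtain ⟨j0, hj0⟩ : ∃ j, l j ≠ 0 := by
    by_contra hcon
    push Not at hcon
    exact hne (funext hcon)
  -- the size of the frequency
  have hbig : (M : ℝ) ^ (κ / 2) ≤ |(l j0 : ℝ)| := by
    have h1 := hL1 (log M) b2 (s i0) s (fun i _ => c i j0) h (hs1 i0)
      (by rw [hexpM]; exact hs3 i0) (fun i => hi0 i (mem_univ i)) hs1
      (fun i => by rw [hexpM]; exact hs3 i)
      (fun i => by
        rw [hexpM]
        exact (hh i).trans (Real.rpow_le_rpow_of_exponent_le b5 hηη1))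
      (fun i j' => by
        rw [hexpM]
        exact (hcabs i j0).trans (Real.one_le_rpow b5 hη1.le))
      (by
        rw [Fin.sum_univ_one, ← hlj j0, mul_one]
        exact_mod_cast hj0)
    rw [Fin.sum_univ_one, ← hlj j0, mul_one] at h1
    have h3 : Real.exp (-(κ / 2 * log (M : ℝ))) = (M : ℝ) ^ (-(κ / 2)) := by
      rw [← hexpM]
      congr 1
      ring
    rw [h3] at h1
    refine le_trans ?_ h1.le
    calc (M : ℝ) ^ (κ / 2) = (M : ℝ) ^ κ * (M : ℝ) ^ (-(κ / 2)) := by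
          rw [← Real.rpow_add hMp]
          congr 1
          ring
      _ ≤ (s i0 : ℝ) * (M : ℝ) ^ (-(κ / 2)) := by
          gcongr
          exact hs2 i0
  have hlbd : ∀ j, |(l j : ℝ)| ≤ (M : ℝ) ^ (A + 2) := by
    intro j
    rw [hlj]
    push_cast
    calc |∑ i', (h i' : ℝ) * ((s i' : ℝ) * (c i' j : ℝ))| ≤
          ∑ i', |(h i' : ℝ) * ((s i' : ℝ) * (c i' j : ℝ))| := abs_sum_le_sum_abs _ _
      _ ≤ ∑ _i' : Fin k, (M : ℝ) ^ (1 : ℝ) * ((M : ℝ) ^ A * 1) := by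
          refine sum_le_sum fun i' _ => ?_
          rw [abs_mul, abs_mul]
          have h5 : |((s i' : ℕ) : ℝ)| ≤ (M : ℝ) ^ A := by
            rw [Nat.abs_cast]; exact hs3 i'
          have h6 : |(h i' : ℝ)| ≤ (M : ℝ) ^ (1 : ℝ) :=
            (hh i').trans (Real.rpow_le_rpow_of_exponent_le b5 hη11)
          exact mul_le_mul h6 (mul_le_mul h5 (hcabs i' j) (abs_nonneg _) (by positivity))
            (by positivity) (by positivity)
      _ = k * ((M : ℝ) ^ (1 : ℝ) * (M : ℝ) ^ A) := by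
          rw [sum_const, card_univ, Fintype.card_fin, nsmul_eq_mul, mul_one]
      _ ≤ M * ((M : ℝ) ^ (1 : ℝ) * (M : ℝ) ^ A) := by gcongr
      _ = (M : ℝ) ^ (A + 2) := by
          rw [show A + 2 = 1 + (1 + A) by ring, Real.rpow_add hMp, Real.rpow_add hMp,
            Real.rpow_one]
  set lam : Fin m → ℝ := fun j => l j * ω j with hlam
  have hn1 : (M : ℝ) ^ (κ / 2) ≤ ‖lam‖ := by
    refine le_trans ?_ (norm_le_pi_norm lam j0)
    rw [hlam, Real.norm_eq_abs, abs_mul]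
    have := (hω j0).1
    have h0 := abs_nonneg (l j0 : ℝ)
    nlinarith
  have hn2 : ‖lam‖ ≤ (M : ℝ) ^ (A + W + 2) := by
    rw [pi_norm_le_iff_of_nonneg (by positivity)]
    intro j
    rw [hlam, Real.norm_eq_abs, abs_mul]
    calc |(l j : ℝ)| * |ω j| ≤ (M : ℝ) ^ (A + 2) * (M : ℝ) ^ W :=
          mul_le_mul (hlbd j) (hω j).2 (abs_nonneg _) (by positivity)
      _ = _ := by
          rw [← Real.rpow_add hMp]
          congr 1
          ring
  obtain ⟨p, ℓ, hp1, hp2, hp3, hp4⟩ := hJ.line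
  have hℓ0 : (0 : ℝ) < ℓ := lt_of_lt_of_le (by positivity) hp4
  have hpmem : |(p : ℝ) / M - c0 i1| ≤ δ := by
    apply hJ.mem i1
    rw [hp1, Finset.mem_Ico]
    have : (0 : ℤ) < ℓ := by exact_mod_cast hℓ0
    constructor <;> linarith
  set f : (Fin n → ℤ) → ℂ := fun a => e (∑ j, lam j * ψ j 0 (fun i => (a i : ℝ) / M)) with hf
  have hline : ∀ a ∈ Fintype.piFinset J, ‖∑ t ∈ J i1, f (Function.update a i1 t)‖ ≤
      (M : ℝ) ^ (1 - ρ) := by
    intro a ha
    rw [Fintype.mem_piFinset] at ha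
    have h1 := hM1 M b1 lam hn1 hn2 (fun i => (a i : ℝ) / M) (fun i => hJ.mem i _ (ha i)) p ℓ hp2
      hpmem hp3
    refine le_trans (le_of_eq ?_) h1
    congr 1
    have h2 : J i1 = (range ℓ).image (fun t : ℕ => p + (t : ℤ)) := by
      rw [hp1]
      ext t
      simp only [Finset.mem_Ico, Finset.mem_image, Finset.mem_range]
      constructor
      · rintro ⟨h3, h4⟩
        exact ⟨(t - p).toNat, by omega, by omega⟩
      · rintro ⟨x, h3, rfl⟩
        omega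
    rw [h2, sum_image (by intro x _ y _ hxy; simpa using hxy)]
    refine sum_congr rfl fun t _ => ?_
    rw [hf]
    simp only
    congr 1
    refine sum_congr rfl fun j _ => ?_
    congr 2
    funext i
    by_cases hi : i = i1
    · subst hi
      rw [Function.update_self, Function.update_self]
      push_cast
      rfl
    · rw [Function.update_of_ne hi, Function.update_of_ne hi]
  have hcardJ : ((J i1).card : ℝ) = ℓ := by
    rw [hp1, Int.card_Ico]
    have : (p + (ℓ : ℤ) - p).toNat = ℓ := by omega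
    rw [this]
  set NT : ℝ := ((Fintype.piFinset J).card : ℝ) with hNT
  have hNT0 : 0 < NT := by
    rw [hNT]
    exact_mod_cast Finset.card_pos.2 (Fintype.piFinset_nonempty.2 hJ.ne)
  have hsum : (ℓ : ℝ) * ‖∑ a ∈ Fintype.piFinset J, f a‖ ≤ NT * (M : ℝ) ^ (1 - ρ) := by
    have h1 := box_lines J i1 f
    have h2 : (ℓ : ℝ) * ‖∑ a ∈ Fintype.piFinset J, f a‖ =
        ‖∑ a ∈ Fintype.piFinset J, ∑ t ∈ J i1, f (Function.update a i1 t)‖ := by
      rw [h1, norm_mul, Complex.norm_natCast, hcardJ]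
    rw [h2]
    refine (norm_sum_le _ _).trans ((sum_le_sum hline).trans ?_)
    rw [sum_const, nsmul_eq_mul]
  unfold hat
  rw [integral_unif]
  have h1 : ∀ a : Fin n → ℤ, Pool.Agent.Y933.KD.e (lin m l
      (fun j => ω j * ψ j 0 (fun i => (a i : ℝ) / M) + v j)) =
      e (∑ j, (l j : ℝ) * v j) * f a := by
    intro a
    have h2 : lin m l (fun j => ω j * ψ j 0 (fun i => (a i : ℝ) / M) + v j) =
        ∑ j, (l j : ℝ) * v j + ∑ j, lam j * ψ j 0 (fun i => (a i : ℝ) / M) := by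
      rw [lin_apply, ← sum_add_distrib]
      refine sum_congr rfl fun j _ => ?_
      rw [hlam]
      ring
    rw [h2]
    exact e_add _ _
  rw [sum_congr rfl fun a _ => h1 a, ← mul_sum, norm_mul, norm_mul, norm_e, one_mul, norm_div,
    norm_one, Complex.norm_natCast]
  rw [← hNT]
  have h3 : ‖∑ a ∈ Fintype.piFinset J, f a‖ ≤ NT * (M : ℝ) ^ (1 - ρ) / ℓ := by
    rw [le_div_iff₀ hℓ0]
    linarith
  calc 1 / NT * ‖∑ a ∈ Fintype.piFinset J, f a‖ ≤ 1 / NT * (NT * (M : ℝ) ^ (1 - ρ) / ℓ) := by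
        gcongr
    _ = (M : ℝ) ^ (1 - ρ) / ℓ := by field_simp
    _ ≤ (M : ℝ) ^ (1 - ρ) / (γ * M) := by gcongr
    _ = 1 / γ * (M : ℝ) ^ (-ρ) := by
        have h4 : (M : ℝ) ^ (1 - ρ) = M * (M : ℝ) ^ (-ρ) := by
          rw [sub_eq_add_neg, Real.rpow_add hMp, Real.rpow_one]
        rw [h4]
        field_simp
    _ ≤ (M : ℝ) ^ (ρ1 / 2) * (M : ℝ) ^ (-ρ1) := by
        have h5 : (M : ℝ) ^ (-ρ) ≤ (M : ℝ) ^ (-ρ1) :=
          Real.rpow_le_rpow_of_exponent_le b5 (neg_le_neg (min_le_left _ _))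
        gcongr
    _ = (M : ℝ) ^ (-(ρ1 / 2)) := by
        rw [← Real.rpow_add hMp]
        congr 1
        ring
    _ ≤ (M : ℝ) ^ (-η) := Real.rpow_le_rpow_of_exponent_le b5 (by linarith)

end Pool.Agent.Q270.AA
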