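import Pool.Agent.Q270.AA.Local
import Pool.Agent.Q270.AA.Box

/-!
# The digits of the roots near a given point
-/

set_option autoImplicit false

namespace Pool.Agent.Q270.AA

open Finset Real Filter Topology MeasureTheory
open Pool.Agent.Y951.TU (tw unif)

variable {d m r : ℕ}

/-- all words have the right frequency in the windows between two places -/
def NB (B w : ℕ) (T0 T E : ℝ) (z : Fin r → ℝ) : Prop :=
  ∀ b : Fin r → ℕ, (∀ j, 2 ≤ b j ∧ b j ≤ B) →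
    ∀ (k : ℕ) (D s : Fin r → ℕ) (N : ℕ), 1 ≤ k → k ≤ w → (∀ j, D j < b j ^ k) →
    (∀ j, T0 ≤ (b j : ℝ) ^ s j) → (∀ j, (s j : ℝ) + N ≤ T) →
    |(((range N).filter (fun i => tw b k (fun j => s j + i) z = D)).card : ℝ) -
      N / ((∏ j, b j : ℕ) : ℝ) ^ k| ≤ E

/-- from the windows far from the point to all windows -/
lemma NB_all {B w : ℕ} {T0 T E E' : ℝ} {z : Fin r → ℝ} (h : NB B w T0 T E z) (hE0 : 0 ≤ E)
    {i0 : ℕ} (hi0 : T0 ≤ 2 ^ i0) (hE : E + i0 ≤ E') : NB B w 0 T E' z := by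
  classical
  intro b hb k D s N hk hkw hD _ hsN
  set t : ℕ := min i0 N with ht
  have htN : t ≤ N := min_le_right _ _
  have hb1 : ∀ j, (1 : ℝ) ≤ b j := fun j => by
    have := (hb j).1
    exact_mod_cast (by omega : 1 ≤ b j)
  have hb2 : ∀ j, (2 : ℝ) ≤ b j := fun j => by exact_mod_cast (hb j).1
  set P : ℝ := ((∏ j, b j : ℕ) : ℝ) ^ k with hP
  have hP1 : 1 ≤ P := by
    rw [hP]
    apply one_le_pow₀
    have : 1 ≤ ∏ j, b j := Nat.succ_le_of_lt (Finset.prod_pos fun j _ => by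
      have := (hb j).1
      omega)
    exact_mod_cast this
  have hsplit : ((range N).filter (fun i => tw b k (fun j => s j + i) z = D)).card =
      ((range t).filter (fun i => tw b k (fun j => s j + i) z = D)).card +
      ((range (N - t)).filter (fun i => tw b k (fun j => (s j + t) + i) z = D)).card := by
    have h1 : range N = range t ∪ (range (N - t)).image (fun i => t + i) := by
      ext i
      simp only [mem_range, mem_union, mem_image]
      constructor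
      · intro hi
        rcases Nat.lt_or_ge i t with h | h
        · exact Or.inl h
        · exact Or.inr ⟨i - t, by omega, by omega⟩
      · rintro (h | ⟨x, hx, rfl⟩) <;> omega
    have hdisj : Disjoint (range t) ((range (N - t)).image (fun i => t + i)) := by
      rw [Finset.disjoint_left]
      intro i hi hi2
      rw [mem_range] at hi
      simp only [mem_image, mem_range] at hi2
      obtain ⟨x, _, rfl⟩ := hi2
      omega
    rw [h1, filter_union, card_union_of_disjoint (disjoint_filter_filter hdisj), filter_image,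
      card_image_of_injective _ (fun x y hxy => by simpa using hxy)]
    congr 2
    refine filter_congr fun i _ => ?_
    have : (fun j => s j + (t + i)) = fun j => (s j + t) + i := by
      funext j
      omega
    rw [this]
  rw [hsplit]
  push_cast
  have hc1 : (((range t).filter (fun i => tw b k (fun j => s j + i) z = D)).card : ℝ) ≤ t := by
    have := card_filter_le (range t) (fun i => tw b k (fun j => s j + i) z = D)
    rw [card_range] at this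
    exact_mod_cast this
  have hc0 : (0 : ℝ) ≤ (((range t).filter (fun i => tw b k (fun j => s j + i) z = D)).card : ℝ) :=
    Nat.cast_nonneg _
  have hti : (t : ℝ) ≤ i0 := by exact_mod_cast min_le_left _ _
  have ht0 : (0 : ℝ) ≤ t := Nat.cast_nonneg _
  have htP : (t : ℝ) / P ≤ t := div_le_self ht0 hP1
  have htP0 : 0 ≤ (t : ℝ) / P := by positivity
  have hrest : |(((range (N - t)).filter
      (fun i => tw b k (fun j => (s j + t) + i) z = D)).card : ℝ) - ((N - t : ℕ) : ℝ) / P| ≤ E := by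
    rcases Nat.lt_or_ge i0 N with h1 | h1
    · have ht' : t = i0 := min_eq_left h1.le
      refine h b hb k D (fun j => s j + t) (N - t) hk hkw hD (fun j => ?_) (fun j => ?_)
      · rw [ht']
        refine hi0.trans ?_
        calc (2 : ℝ) ^ i0 ≤ (b j : ℝ) ^ i0 := by
              gcongr
              exact hb2 j
          _ ≤ (b j : ℝ) ^ (s j + i0) := pow_le_pow_right₀ (hb1 j) (Nat.le_add_left _ _)
      · have := hsN j
        push_cast [Nat.cast_sub htN]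
        linarith
    · have ht' : t = N := min_eq_right h1
      rw [ht', Nat.sub_self]
      simp only [range_zero, filter_empty, card_empty, Nat.cast_zero, zero_div, sub_zero, abs_zero]
      exact hE0
  push_cast [Nat.cast_sub htN] at hrest
  rw [abs_le] at hrest ⊢
  rw [sub_div] at hrest
  constructor <;> linarith [hrest.1, hrest.2]

/-- the integer interval -/
noncomputable def Jc (c0 : Fin (d + 1) → ℝ) (δ : ℝ) (M : ℕ) (i : Fin (d + 1)) : Finset ℤ :=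
  Finset.Ico ⌈(M : ℝ) * (c0 i - δ)⌉ ⌊(M : ℝ) * (c0 i + δ)⌋

lemma Jc_mem {c0 : Fin (d + 1) → ℝ} {δ : ℝ} {M : ℕ} (hM : 0 < (M : ℝ)) {i : Fin (d + 1)} {t : ℤ}
    (ht : t ∈ Jc c0 δ M i) : |(t : ℝ) / M - c0 i| ≤ δ := by
  unfold Jc at ht
  rw [Finset.mem_Ico] at ht
  have h1 : (M : ℝ) * (c0 i - δ) ≤ t := (Int.le_ceil _).trans (by exact_mod_cast ht.1)
  have h2 : (t : ℝ) ≤ (M : ℝ) * (c0 i + δ) :=
    (show (t : ℝ) ≤ (⌊(M : ℝ) * (c0 i + δ)⌋ : ℤ) by exact_mod_cast ht.2.le).trans (Int.floor_le _)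
  have h3 : (M : ℝ) * ((t : ℝ) / M) = t := by field_simp
  rw [abs_le]
  constructor
  · by_contra hcon
    push Not at hcon
    nlinarith
  · by_contra hcon
    push Not at hcon
    nlinarith

lemma mem_Jc {c0 : Fin (d + 1) → ℝ} {δ : ℝ} {M : ℕ} (hM : 0 < (M : ℝ)) (hδM : 4 ≤ δ * M)
    {i : Fin (d + 1)} {t : ℤ} (ht : |(t : ℝ) / M - c0 i| < δ / 2) : t ∈ Jc c0 δ M i := by
  unfold Jc
  rw [Finset.mem_Ico]
  rw [abs_lt] at ht
  have h3 : (M : ℝ) * ((t : ℝ) / M) = t := by field_simp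
  constructor
  · apply Int.ceil_le.2
    nlinarith [ht.1]
  · have h1 : (t : ℝ) + 1 < (M : ℝ) * (c0 i + δ) := by nlinarith [ht.2]
    have h2 : t + 1 ≤ ⌊(M : ℝ) * (c0 i + δ)⌋ := by
      apply Int.le_floor.2
      push_cast
      exact h1.le
    omega

lemma Jc_box {c0 : Fin (d + 1) → ℝ} {δ : ℝ} (hδ : 0 < δ) (hδ4 : δ ≤ 1 / 4) {M : ℕ}
    (hM : 0 < (M : ℝ)) (hδM : 4 ≤ δ * M) (i1 : Fin (d + 1)) :
    BoxI i1 c0 δ δ M (Jc c0 δ M) := by
  have hlen : ∀ i, ∃ ℓ : ℕ, ⌊(M : ℝ) * (c0 i + δ)⌋ = ⌈(M : ℝ) * (c0 i - δ)⌉ + ℓ ∧ δ * M ≤ ℓ ∧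
      (ℓ : ℝ) ≤ M := by
    intro i
    have h1 := Int.lt_floor_add_one ((M : ℝ) * (c0 i + δ))
    have h2 := Int.ceil_lt_add_one ((M : ℝ) * (c0 i - δ))
    have h3 := Int.floor_le ((M : ℝ) * (c0 i + δ))
    have h4 := Int.le_ceil ((M : ℝ) * (c0 i - δ))
    have h5 : δ * M ≤ ((⌊(M : ℝ) * (c0 i + δ)⌋ - ⌈(M : ℝ) * (c0 i - δ)⌉ : ℤ) : ℝ) := by
      push_cast
      nlinarith
    have h6 : 0 ≤ ⌊(M : ℝ) * (c0 i + δ)⌋ - ⌈(M : ℝ) * (c0 i - δ)⌉ := by
      have : (0 : ℝ) ≤ ((⌊(M : ℝ) * (c0 i + δ)⌋ - ⌈(M : ℝ) * (c0 i - δ)⌉ : ℤ) : ℝ) := by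
        refine le_trans ?_ h5
        positivity
      exact_mod_cast this
    refine ⟨(⌊(M : ℝ) * (c0 i + δ)⌋ - ⌈(M : ℝ) * (c0 i - δ)⌉).toNat, by omega, ?_, ?_⟩
    · have h7 : (((⌊(M : ℝ) * (c0 i + δ)⌋ - ⌈(M : ℝ) * (c0 i - δ)⌉).toNat : ℕ) : ℝ) =
          ((⌊(M : ℝ) * (c0 i + δ)⌋ - ⌈(M : ℝ) * (c0 i - δ)⌉ : ℤ) : ℝ) := by
        exact_mod_cast Int.toNat_of_nonneg h6
      rw [h7]
      exact h5
    · have h7 : (((⌊(M : ℝ) * (c0 i + δ)⌋ - ⌈(M : ℝ) * (c0 i - δ)⌉).toNat : ℕ) : ℝ) =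
          ((⌊(M : ℝ) * (c0 i + δ)⌋ - ⌈(M : ℝ) * (c0 i - δ)⌉ : ℤ) : ℝ) := by
        exact_mod_cast Int.toNat_of_nonneg h6
      rw [h7]
      push_cast
      nlinarith
  refine ⟨fun i t ht => Jc_mem hM ht, fun i => ?_, ?_⟩
  · obtain ⟨ℓ, h1, h2, -⟩ := hlen i
    have h3 : (0 : ℝ) < ℓ := by linarith
    have h4 : 0 < ℓ := by exact_mod_cast h3
    unfold Jc
    rw [Finset.nonempty_Ico]
    omega
  · obtain ⟨ℓ, h1, h2, h2'⟩ := hlen i1
    refine ⟨⌈(M : ℝ) * (c0 i1 - δ)⌉, ℓ, ?_, by exact_mod_cast h2', ?_, h2⟩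
    · unfold Jc
      rw [h1]
    · have h3 : ((⌈(M : ℝ) * (c0 i1 - δ)⌉ : ℝ) + ℓ) = ((⌊(M : ℝ) * (c0 i1 + δ)⌋ : ℤ) : ℝ) := by
        rw [h1]
        push_cast
        rfl
      rw [h3]
      have h4 := Int.floor_le ((M : ℝ) * (c0 i1 + δ))
      have h5 := Int.lt_floor_add_one ((M : ℝ) * (c0 i1 + δ))
      have h6 : (M : ℝ) * (((⌊(M : ℝ) * (c0 i1 + δ)⌋ : ℤ) : ℝ) / M) =
          ((⌊(M : ℝ) * (c0 i1 + δ)⌋ : ℤ) : ℝ) := by field_simp
      rw [abs_le]
      constructor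
      · by_contra hcon
        push Not at hcon
        nlinarith
      · by_contra hcon
        push Not at hcon
        nlinarith

open Classical in
/-- near a point with a simple root, most of the polynomials have a normal root -/
theorem cell (hd : 1 ≤ d) (hm : 1 ≤ m) {B w : ℕ} (hB : 1 ≤ B) (A ε κ : ℝ) (hε : 0 < ε)
    (hκ : 0 < κ) {c0 : Fin (d + 1) → ℝ} {x0 : ℝ} (h0 : pv c0 x0 = 0) (h1 : pd c0 x0 ≠ 0)
    (hc0 : c0 0 ≠ 0) :
    ∃ U ∈ 𝓝 (c0, x0), ∃ c : ℝ, 0 < c ∧ ∃ M₀ : ℕ, ∀ M : ℕ, M₀ ≤ M →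
      ∀ T : Finset (Fin (d + 1) → ℤ),
      (∀ a ∈ T, ∃ x : ℝ, ((fun i => (a i : ℝ) / M), x) ∈ U ∧ pv (fun i => (a i : ℝ) / M) x = 0 ∧
        ¬ NB B w ((M : ℝ) ^ κ) (A * log M) (ε * log M) (fun j : Fin m => x ^ ((j : ℕ) + 1))) →
      (T.card : ℝ) ≤ (M : ℝ) ^ ((d : ℝ) + 1 - c) := by
  obtain ⟨Φ, hΦa, hΦ0, hΦr, hΦu⟩ := local_root h0 h1
  set Am : ℝ := max 0 ((|A| + |A + 1|) * log B) with hAm
  have hAm0 : 0 ≤ Am := le_max_left _ _
  set K : ℕ := ⌈Am + 4⌉₊ with hK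
  have hKc : Am + 0 + 4 ≤ K := by
    rw [add_zero]
    exact Nat.le_ceil _
  obtain ⟨δ, hδ, hδ4, hchain⟩ := exists_chain (m := m) (1 : Fin (d + 1))
    (Φ := fun j c => Φ c ^ ((j : ℕ) + 1)) (c0 := c0) (fun j => hΦa.pow _)
    (fun u hu p => root_nondeg hd hc0 hΦr u hu p) K (1 / 4) (by norm_num)
  have hgood := good_box hchain δ 0 κ Am hδ le_rfl hκ hAm0 hKc
  obtain ⟨c, hc, M1, hM1⟩ := normal_all_B (ι := Fin (d + 1) → ℤ)
    (SB_prob (1 : Fin (d + 1)) c0 δ δ 0 _) hgood hm B w A ε hε hB (le_max_right _ _)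
  obtain ⟨M2, hM2⟩ := exists_nat_gt (4 / δ)
  refine ⟨(Metric.ball c0 (δ / 2) ×ˢ Set.univ) ∩ {v | pv v.1 v.2 = 0 → v.2 = Φ v.1}, ?_, c, hc,
    max M1 (max M2 1), ?_⟩
  · refine Filter.inter_mem ?_ hΦu
    exact prod_mem_nhds (Metric.ball_mem_nhds _ (by positivity)) Filter.univ_mem
  intro M hM T hT
  have hMM1 : M1 ≤ M := le_of_max_le_left hM
  have hMM2 : M2 ≤ M := le_of_max_le_left (le_of_max_le_right hM)
  have hM1' : 1 ≤ M := le_of_max_le_right (le_of_max_le_right hM)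
  have hMR : (1 : ℝ) ≤ M := by exact_mod_cast hM1'
  have hMp : (0 : ℝ) < M := by linarith
  have hδM : 4 ≤ δ * M := by
    have h2 : (M2 : ℝ) ≤ M := by exact_mod_cast hMM2
    have h3 : 4 / δ < M := lt_of_lt_of_le hM2 h2
    rw [div_lt_iff₀ hδ] at h3
    linarith
  have hbox := Jc_box (c0 := c0) hδ hδ4 hMp hδM (1 : Fin (d + 1))
  set J := Jc c0 δ M with hJ
  have key := hM1 M hMM1 (Fintype.piFinset J)
    (fun a (j : Fin m) => Φ (fun i => (a i : ℝ) / M) ^ ((j : ℕ) + 1))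
    (Fintype.piFinset_nonempty.2 hbox.ne) ⟨J, fun _ => 1, fun _ => 0, hbox, fun j => by
      rw [abs_one, Real.rpow_zero]
      exact ⟨le_rfl, le_rfl⟩, by
      congr 1
      funext a j
      rw [Psi_zero, one_mul, add_zero]⟩
  have hsub : T ⊆ (Fintype.piFinset J).filter (fun a => ¬ NB B w ((M : ℝ) ^ κ) (A * log M)
      (ε * log M) (fun j : Fin m => Φ (fun i => (a i : ℝ) / M) ^ ((j : ℕ) + 1))) := by
    intro a ha
    obtain ⟨x, hxU, hx0, hxn⟩ := hT a ha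
    have h2 := hxU.2 hx0
    simp only at h2
    rw [h2] at hxn
    rw [mem_filter, Fintype.mem_piFinset]
    refine ⟨fun i => ?_, hxn⟩
    apply mem_Jc hMp hδM
    have h3 := hxU.1.1
    rw [Metric.mem_ball, dist_pi_lt_iff (by positivity)] at h3
    have h4 := h3 i
    rw [Real.dist_eq] at h4
    exact h4
  have hcard : (((Fintype.piFinset J).card : ℕ) : ℝ) ≤ (M : ℝ) ^ ((d : ℝ) + 1) := by
    rw [Fintype.card_piFinset]
    push_cast
    have h2 : ∀ i, ((J i).card : ℝ) ≤ M := by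
      intro i
      obtain ⟨p, ℓ, h3, h4, -, -⟩ := (Jc_box (c0 := c0) hδ hδ4 hMp hδM i).line
      rw [← hJ] at h3
      rw [h3, Int.card_Ico]
      have : (p + (ℓ : ℤ) - p).toNat = ℓ := by omega
      rw [this]
      exact_mod_cast h4
    calc ∏ i, ((J i).card : ℝ) ≤ ∏ _i : Fin (d + 1), (M : ℝ) :=
          Finset.prod_le_prod (fun i _ => Nat.cast_nonneg _) fun i _ => h2 i
      _ = (M : ℝ) ^ (d + 1) := by rw [prod_const, card_univ, Fintype.card_fin]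
      _ = (M : ℝ) ^ ((d : ℝ) + 1) := by
          rw [← Real.rpow_natCast]
          push_cast
          rfl
  calc (T.card : ℝ) ≤ (((Fintype.piFinset J).filter (fun a => ¬ NB B w ((M : ℝ) ^ κ) (A * log M)
      (ε * log M) (fun j : Fin m => Φ (fun i => (a i : ℝ) / M) ^ ((j : ℕ) + 1)))).card : ℝ) := by
        exact_mod_cast card_le_card hsub
    _ ≤ (Fintype.piFinset J).card * (M : ℝ) ^ (-c) := key
    _ ≤ (M : ℝ) ^ ((d : ℝ) + 1) * (M : ℝ) ^ (-c) := by gcongr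
    _ = (M : ℝ) ^ ((d : ℝ) + 1 - c) := by
        rw [← Real.rpow_add hMp]
        congr 1

end Pool.Agent.Q270.AA
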