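import Pool.Agent.Q270.AA.Local

/-!
# The degenerate polynomials: a compact null set, and lattice points near it
-/

set_option autoImplicit false

namespace Pool.Agent.Q270.AA

open Finset Real Filter Topology MeasureTheory
open scoped Pointwise

variable {d : ℕ}

/-- the number of the integer points in large multiples of a set -/
theorem lattice_count {n : ℕ} (s : Set (Fin n → ℝ)) (hs₁ : Bornology.IsBounded s)
    (hs₂ : MeasurableSet s) (hs₃ : volume (frontier s) = 0) :
    Tendsto (fun M : ℕ => (({a : Fin n → ℤ | (fun i => (a i : ℝ) / M) ∈ s}.ncard : ℕ) : ℝ) /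
      (M : ℝ) ^ n) atTop (𝓝 (volume.real s)) := by
  have h := tendsto_card_div_pow_atTop_volume s hs₁ hs₂ hs₃
  rw [Fintype.card_fin] at h
  refine h.congr' ?_
  filter_upwards [eventually_ge_atTop 1] with M hM
  congr 2
  have hM0 : (M : ℝ) ≠ 0 := by exact_mod_cast (show M ≠ 0 by omega)
  rw [Nat.card_coe_set_eq]
  have himg : s ∩ ((M : ℝ)⁻¹ • (Submodule.span ℤ (Set.range (Pi.basisFun ℝ (Fin n))) :
      Set (Fin n → ℝ))) = (fun (a : Fin n → ℤ) (i : Fin n) => (a i : ℝ) / M) ''
        {a : Fin n → ℤ | (fun i => (a i : ℝ) / M) ∈ s} := by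
    ext x
    constructor
    · rintro ⟨hx, hx2⟩
      rw [Set.mem_smul_set] at hx2
      obtain ⟨z, hz, rfl⟩ := hx2
      rw [SetLike.mem_coe, Module.Basis.mem_span_iff_repr_mem] at hz
      choose a ha using hz
      have h1 : (fun i => (a i : ℝ) / M) = (M : ℝ)⁻¹ • z := by
        funext i
        have h2 := ha i
        simp only [Pi.basisFun_repr, algebraMap_int_eq, eq_intCast] at h2
        rw [Pi.smul_apply, smul_eq_mul, ← h2, div_eq_inv_mul]
      refine ⟨a, ?_, h1⟩
      simp only [Set.mem_ofPred_eq]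
      rw [h1]
      exact hx
    · rintro ⟨a, ha, rfl⟩
      refine ⟨ha, ?_⟩
      rw [Set.mem_smul_set]
      refine ⟨fun i => (a i : ℝ), ?_, ?_⟩
      · rw [SetLike.mem_coe, Module.Basis.mem_span_iff_repr_mem]
        intro i
        exact ⟨a i, by simp⟩
      · funext i
        show (M : ℝ)⁻¹ * (a i : ℝ) = (a i : ℝ) / M
        rw [div_eq_inv_mul]
  rw [himg, Set.ncard_image_of_injective]
  intro a b hab
  funext i
  have h1 := congrFun hab i
  simp only at h1
  have h2 : (a i : ℝ) = b i := by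
    field_simp at h1
    exact h1
  exact_mod_cast h2

/-- the unit cube -/
def Cu (d : ℕ) : Set (Fin (d + 1) → ℝ) := {c | ∀ i, |c i| ≤ 1}

/-- the degenerate polynomials in the cube -/
def Zs (d : ℕ) : Set (Fin (d + 1) → ℝ) :=
  {c | c ∈ Cu d ∧ (c 0 = 0 ∨ c (Fin.last d) = 0 ∨ ∃ x : ℝ, pv c x = 0 ∧ pd c x = 0)}

lemma Cu_closed (d : ℕ) : IsClosed (Cu d) := by
  have : Cu d = ⋂ i, {c : Fin (d + 1) → ℝ | |c i| ≤ 1} := by
    ext c
    simp [Cu]
  rw [this]
  exact isClosed_iInter fun i => isClosed_le (by fun_prop) continuous_const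

lemma Cu_bounded (d : ℕ) : Bornology.IsBounded (Cu d) := by
  refine (Metric.isBounded_closedBall (x := (0 : Fin (d + 1) → ℝ)) (r := 1)).subset ?_
  intro c hc
  rw [Metric.mem_closedBall, dist_zero_right, pi_norm_le_iff_of_nonneg zero_le_one]
  exact fun i => hc i

/-- the roots are bounded -/
lemma root_bound (hd : 1 ≤ d) {c : Fin (d + 1) → ℝ} (hc : c ∈ Cu d) {η : ℝ} (hη : 0 < η)
    (hη1 : η ≤ 1) (hcd : η ≤ |c (Fin.last d)|) {x : ℝ} (hx : pv c x = 0) :
    |x| ≤ (d + 1) / η := by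
  by_contra hcon
  push Not at hcon
  have hx1 : 1 < |x| := by
    refine lt_of_le_of_lt ?_ hcon
    rw [le_div_iff₀ hη]
    have : (0 : ℝ) ≤ d := Nat.cast_nonneg d
    linarith
  unfold pv at hx
  rw [Fin.sum_univ_castSucc] at hx
  have h1 : |c (Fin.last d) * x ^ (Fin.last d : ℕ)| =
      |∑ i : Fin d, c i.castSucc * x ^ (i.castSucc : ℕ)| := by
    have : c (Fin.last d) * x ^ (Fin.last d : ℕ) =
      -∑ i : Fin d, c i.castSucc * x ^ (i.castSucc : ℕ) := by linarith
    rw [this, abs_neg]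
  have h2 : |∑ i : Fin d, c i.castSucc * x ^ (i.castSucc : ℕ)| ≤ d * |x| ^ (d - 1) := by
    calc |∑ i : Fin d, c i.castSucc * x ^ (i.castSucc : ℕ)| ≤
          ∑ i : Fin d, |c i.castSucc * x ^ (i.castSucc : ℕ)| := abs_sum_le_sum_abs _ _
      _ ≤ ∑ _i : Fin d, |x| ^ (d - 1) := by
          refine sum_le_sum fun i _ => ?_
          rw [abs_mul, abs_pow]
          calc |c i.castSucc| * |x| ^ (i.castSucc : ℕ) ≤ 1 * |x| ^ (d - 1) := by
                apply mul_le_mul (hc _) _ (by positivity) zero_le_one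
                apply pow_le_pow_right₀ hx1.le
                rw [Fin.val_castSucc]
                omega
            _ = _ := one_mul _
      _ = d * |x| ^ (d - 1) := by rw [sum_const, card_univ, Fintype.card_fin, nsmul_eq_mul]
  have h3 : η * |x| * |x| ^ (d - 1) ≤ |c (Fin.last d) * x ^ (Fin.last d : ℕ)| := by
    rw [abs_mul, abs_pow, Fin.val_last, mul_assoc, ← pow_succ']
    have : d - 1 + 1 = d := by omega
    rw [this]
    gcongr
  rw [h1] at h3
  have h4 : 0 < |x| ^ (d - 1) := by positivity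
  have h5 : η * |x| ≤ d := by
    by_contra h6
    push Not at h6
    have := mul_lt_mul_of_pos_right h6 h4
    linarith
  rw [div_lt_iff₀ hη] at hcon
  linarith

lemma pv_cont : Continuous (fun v : (Fin (d + 1) → ℝ) × ℝ => pv v.1 v.2) :=
  pv_contDiff.continuous

lemma pd_cont : Continuous (fun v : (Fin (d + 1) → ℝ) × ℝ => pd v.1 v.2) := by
  unfold pd
  fun_prop

lemma Zs_closed (hd : 1 ≤ d) : IsClosed (Zs d) := by
  rw [← isOpen_compl_iff, isOpen_iff_mem_nhds]
  intro c hc
  by_cases hcC : c ∈ Cu d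
  swap
  · filter_upwards [(Cu_closed d).isOpen_compl.mem_nhds hcC] with c' hc' hZ
    exact hc' hZ.1
  have hc' : ¬ (c 0 = 0 ∨ c (Fin.last d) = 0 ∨ ∃ x : ℝ, pv c x = 0 ∧ pd c x = 0) :=
    fun h => hc ⟨hcC, h⟩
  push Not at hc'
  obtain ⟨h0, hl, hx⟩ := hc'
  set η : ℝ := |c (Fin.last d)| / 2 with hη
  have hl0 : 0 < |c (Fin.last d)| := abs_pos.2 hl
  have hη0 : 0 < η := by positivity
  have hη1 : η ≤ 1 := by
    have := hcC (Fin.last d)
    rw [hη]
    linarith
  have hK : IsCompact (Set.Icc (-((d + 1) / η)) ((d + 1) / η)) := isCompact_Icc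
  have h1 : ∀ᶠ c' in 𝓝 c, ∀ x ∈ Set.Icc (-(((d : ℝ) + 1) / η)) ((d + 1) / η),
      0 < |pv c' x| + |pd c' x| := by
    refine hK.eventually_forall_of_forall_eventually fun x _ => ?_
    have h2 : Continuous (fun v : (Fin (d + 1) → ℝ) × ℝ => |pv v.1 v.2| + |pd v.1 v.2|) :=
      pv_cont.abs.add pd_cont.abs
    apply h2.continuousAt.eventually (lt_mem_nhds _)
    by_cases h3 : pv c x = 0
    · have := abs_pos.2 (hx x h3)
      have h4 := abs_nonneg (pv c x)
      simp only
      linarith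
    · have := abs_pos.2 h3
      have h4 := abs_nonneg (pd c x)
      simp only
      linarith
  have h2 : ∀ᶠ c' : Fin (d + 1) → ℝ in 𝓝 c, c' 0 ≠ 0 :=
    (continuous_apply (0 : Fin (d + 1))).continuousAt.eventually_ne h0
  have h3 : ∀ᶠ c' : Fin (d + 1) → ℝ in 𝓝 c, η < |c' (Fin.last d)| := by
    have h4 : Continuous fun c' : Fin (d + 1) → ℝ => |c' (Fin.last d)| := by fun_prop
    exact h4.continuousAt.eventually (lt_mem_nhds (by rw [hη]; linarith))
  filter_upwards [h1, h2, h3] with c' g1 g2 g3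
  rintro ⟨g4, g5⟩
  rcases g5 with g5 | g5 | ⟨x, g5, g6⟩
  · exact g2 g5
  · rw [g5, abs_zero] at g3
    linarith
  · have g7 := root_bound hd g4 hη0 hη1 g3.le g5
    have g8 := g1 x (abs_le.1 g7)
    rw [g5, g6, abs_zero, add_zero] at g8
    exact lt_irrefl _ g8

/-- the fibres are finite up to the plane `c_d = 0` -/
lemma Zs_fibre (hd : 1 ≤ d) (c' : Fin d → ℝ) (hc' : (Fin.cons 0 c' : Fin (d + 1) → ℝ) (Fin.last d) ≠ 0) :
    {t : ℝ | (Fin.cons t c' : Fin (d + 1) → ℝ) ∈ Zs d}.Finite := by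
  set c0 : Fin (d + 1) → ℝ := Fin.cons 0 c' with hc0
  have hother : ∀ (t : ℝ) (i : Fin (d + 1)), i ≠ 0 → (Fin.cons t c' : Fin (d + 1) → ℝ) i = c0 i := by
    intro t i hi
    obtain ⟨j, rfl⟩ := Fin.exists_succ_eq.2 hi
    rw [hc0, Fin.cons_succ, Fin.cons_succ]
  have hlast0 : Fin.last d ≠ 0 := by
    intro h
    have := congrArg Fin.val h
    simp at this
    omega
  have hpv : ∀ t x : ℝ, pv (Fin.cons t c' : Fin (d + 1) → ℝ) x = t + pv c0 x := by
    intro t x
    unfold pv
    rw [Fin.sum_univ_succ, Fin.sum_univ_succ, hc0]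
    simp
  have hpd : ∀ t x : ℝ, pd (Fin.cons t c' : Fin (d + 1) → ℝ) x = pd c0 x := by
    intro t x
    unfold pd
    rw [Fin.sum_univ_succ, Fin.sum_univ_succ, hc0]
    simp
  set q : Polynomial ℝ := ∑ i : Fin (d + 1), Polynomial.C (c0 i * (i : ℕ)) *
    Polynomial.X ^ ((i : ℕ) - 1) with hq
  have hqev : ∀ x : ℝ, q.eval x = pd c0 x := by
    intro x
    rw [hq, Polynomial.eval_finsetSum]
    unfold pd
    refine sum_congr rfl fun i _ => ?_
    simp only [Polynomial.eval_mul, Polynomial.eval_C, Polynomial.eval_pow, Polynomial.eval_X]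
    ring
  have hq0 : q ≠ 0 := by
    intro h
    have h1 := congrArg (fun p => p.coeff (d - 1)) h
    simp only [hq, Polynomial.finsetSum_coeff, Polynomial.coeff_C_mul_X_pow,
      Polynomial.coeff_zero] at h1
    rw [Fin.sum_univ_castSucc, Finset.sum_eq_zero, zero_add] at h1
    · rw [Fin.val_last, if_pos rfl] at h1
      have h2 : (d : ℝ) ≠ 0 := by exact_mod_cast (show d ≠ 0 by omega)
      exact mul_ne_zero hc' h2 h1
    · intro i _
      rw [Fin.val_castSucc]
      rcases Nat.eq_zero_or_pos (i : ℕ) with h2 | h2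
      · rw [h2]
        simp
      · rw [if_neg (by have := i.2; omega)]
  have hfin : {x : ℝ | pd c0 x = 0}.Finite := by
    refine (q.roots.toFinset.finite_toSet).subset fun x hx => ?_
    simp only [Finset.mem_coe, Multiset.mem_toFinset]
    rw [Polynomial.mem_roots hq0, Polynomial.IsRoot, hqev]
    exact hx
  refine ((hfin.image fun x => -pv c0 x).union (Set.finite_singleton (0 : ℝ))).subset ?_
  intro t ht
  obtain ⟨-, h1 | h1 | ⟨x, h1, h2⟩⟩ := ht
  · right
    rw [Fin.cons_zero] at h1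
    exact h1
  · exfalso
    rw [hother t _ hlast0] at h1
    exact hc' h1
  · left
    rw [hpv] at h1
    rw [hpd] at h2
    exact ⟨x, h2, by linarith⟩

theorem Zs_null (hd : 1 ≤ d) : volume (Zs d) = 0 := by
  have hclosed := Zs_closed hd
  have hmp := (MeasureTheory.volume_preserving_piFinSuccAbove (fun _ : Fin (d + 1) => ℝ) 0).symm
  set g := (MeasurableEquiv.piFinSuccAbove (fun _ : Fin (d + 1) => ℝ) 0).symm with hg
  have hgeq : ∀ v : ℝ × (Fin d → ℝ), g v = (Fin.cons v.1 v.2 : Fin (d + 1) → ℝ) := by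
    intro v
    rw [hg]
    funext i
    refine Fin.cases ?_ (fun j => ?_) i
    · simp [MeasurableEquiv.piFinSuccAbove]
    · simp [MeasurableEquiv.piFinSuccAbove]
  rw [← hmp.measure_preimage hclosed.measurableSet.nullMeasurableSet]
  have hmeas : MeasurableSet (g ⁻¹' Zs d) := g.measurable hclosed.measurableSet
  rw [Measure.volume_eq_prod, ← Measure.prod_swap, Measure.map_apply measurable_swap hmeas,
    Measure.measure_prod_null (measurable_swap hmeas)]
  -- almost every fibre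
  obtain ⟨i0, hi0⟩ : ∃ i0 : Fin d, i0.succ = Fin.last d := by
    have hlast0 : Fin.last d ≠ 0 := by
      intro h
      have := congrArg Fin.val h
      simp at this
      omega
    exact Fin.exists_succ_eq.2 hlast0
  have hae : ∀ᵐ c' : Fin d → ℝ, c' i0 ≠ 0 := by
    have h1 := Measure.pi_hyperplane (fun _ : Fin d => (volume : Measure ℝ)) i0 (0 : ℝ)
    rw [ae_iff]
    simp only [ne_eq, not_not]
    exact h1
  filter_upwards [hae] with c' hc'
  have h2 : (Prod.mk c' ⁻¹' (Prod.swap ⁻¹' (g ⁻¹' Zs d))) =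
      {t : ℝ | (Fin.cons t c' : Fin (d + 1) → ℝ) ∈ Zs d} := by
    ext t
    simp only [Set.mem_preimage, Prod.swap_prod_mk, Set.mem_ofPred_eq]
    rw [hgeq]
  rw [h2]
  exact (Zs_fibre hd c' (by rw [← hi0, Fin.cons_succ]; exact hc')).measure_zero _

end Pool.Agent.Q270.AA
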