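import Pool.Agent.Q270.AA.Cell
import Pool.Agent.Q270.AA.Meas

/-!
# The roots of almost all integer polynomials
-/

set_option autoImplicit false

namespace Pool.Agent.Q270.AA

open Finset Real Filter Topology MeasureTheory

variable {d m : ℕ}

/-- the polynomials with a bad root in a compact set of nondegenerate points -/
theorem compact_bad (hd : 1 ≤ d) (hm : 1 ≤ m) {B w : ℕ} (hB : 1 ≤ B) (A ε κ : ℝ) (hε : 0 < ε)
    (hκ : 0 < κ) {S : Set ((Fin (d + 1) → ℝ) × ℝ)} (hS : IsCompact S)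
    (hS2 : ∀ v ∈ S, pv v.1 v.2 = 0 ∧ pd v.1 v.2 ≠ 0 ∧ v.1 0 ≠ 0) :
    ∃ C : ℝ, 0 ≤ C ∧ ∃ c : ℝ, 0 < c ∧ ∃ M₀ : ℕ, ∀ M : ℕ, M₀ ≤ M →
      ∀ T : Finset (Fin (d + 1) → ℤ),
      (∀ a ∈ T, ∃ x : ℝ, ((fun i => (a i : ℝ) / M), x) ∈ S ∧ pv (fun i => (a i : ℝ) / M) x = 0 ∧
        ¬ NB B w ((M : ℝ) ^ κ) (A * log M) (ε * log M) (fun j : Fin m => x ^ ((j : ℕ) + 1))) →
      (T.card : ℝ) ≤ C * (M : ℝ) ^ ((d : ℝ) + 1 - c) := by
  classical
  refine hS.induction_on (p := fun S => ∃ C : ℝ, 0 ≤ C ∧ ∃ c : ℝ, 0 < c ∧ ∃ M₀ : ℕ, ∀ M : ℕ,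
      M₀ ≤ M → ∀ T : Finset (Fin (d + 1) → ℤ),
      (∀ a ∈ T, ∃ x : ℝ, ((fun i => (a i : ℝ) / M), x) ∈ S ∧ pv (fun i => (a i : ℝ) / M) x = 0 ∧
        ¬ NB B w ((M : ℝ) ^ κ) (A * log M) (ε * log M) (fun j : Fin m => x ^ ((j : ℕ) + 1))) →
      (T.card : ℝ) ≤ C * (M : ℝ) ^ ((d : ℝ) + 1 - c)) ?_ ?_ ?_ ?_
  · refine ⟨0, le_rfl, 1, one_pos, 0, fun M _ T hT => ?_⟩
    have : T = ∅ := by
      rw [Finset.eq_empty_iff_forall_notMem]
      intro a ha
      obtain ⟨x, hx, -⟩ := hT a ha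
      exact hx
    rw [this]
    simp
  · rintro s t hst ⟨C, hC, c, hc, M0, h⟩
    refine ⟨C, hC, c, hc, M0, fun M hM T hT => h M hM T fun a ha => ?_⟩
    obtain ⟨x, hx, h1⟩ := hT a ha
    exact ⟨x, hst hx, h1⟩
  · rintro s t ⟨C, hC, c, hc, M0, h⟩ ⟨C', hC', c', hc', M0', h'⟩
    refine ⟨C + C', by positivity, min c c', lt_min hc hc', max (max M0 M0') 1,
      fun M hM T hT => ?_⟩
    have hM0 : M0 ≤ M := le_of_max_le_left (le_of_max_le_left hM)
    have hM0' : M0' ≤ M := le_of_max_le_right (le_of_max_le_left hM)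
    have hM1 : (1 : ℝ) ≤ M := by exact_mod_cast le_of_max_le_right hM
    set T1 := T.filter (fun a => ∃ x : ℝ, ((fun i => (a i : ℝ) / M), x) ∈ s ∧
      pv (fun i => (a i : ℝ) / M) x = 0 ∧
        ¬ NB B w ((M : ℝ) ^ κ) (A * log M) (ε * log M) (fun j : Fin m => x ^ ((j : ℕ) + 1))) with hT1
    set T2 := T.filter (fun a => ∃ x : ℝ, ((fun i => (a i : ℝ) / M), x) ∈ t ∧
      pv (fun i => (a i : ℝ) / M) x = 0 ∧
        ¬ NB B w ((M : ℝ) ^ κ) (A * log M) (ε * log M) (fun j : Fin m => x ^ ((j : ℕ) + 1))) with hT2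
    have h1 := h M hM0 T1 fun a ha => (mem_filter.1 ha).2
    have h2 := h' M hM0' T2 fun a ha => (mem_filter.1 ha).2
    have h3 : T ⊆ T1 ∪ T2 := by
      intro a ha
      obtain ⟨x, hx, hx2⟩ := hT a ha
      rcases hx with hx | hx
      · exact mem_union_left _ (mem_filter.2 ⟨ha, x, hx, hx2⟩)
      · exact mem_union_right _ (mem_filter.2 ⟨ha, x, hx, hx2⟩)
    calc (T.card : ℝ) ≤ ((T1 ∪ T2).card : ℝ) := by exact_mod_cast card_le_card h3
      _ ≤ T1.card + T2.card := by exact_mod_cast card_union_le _ _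
      _ ≤ C * (M : ℝ) ^ ((d : ℝ) + 1 - c) + C' * (M : ℝ) ^ ((d : ℝ) + 1 - c') := add_le_add h1 h2
      _ ≤ C * (M : ℝ) ^ ((d : ℝ) + 1 - min c c') + C' * (M : ℝ) ^ ((d : ℝ) + 1 - min c c') := by
          have g1 := min_le_left c c'
          have g2 := min_le_right c c'
          gcongr
      _ = _ := by ring
  · rintro ⟨c0, x0⟩ hv
    obtain ⟨g1, g2, g3⟩ := hS2 _ hv
    obtain ⟨U, hU, c, hc, M0, h⟩ := cell (m := m) hd hm hB (w := w) A ε κ hε hκ g1 g2 g3
    refine ⟨U, nhdsWithin_le_nhds hU, 1, zero_le_one, c, hc, M0, fun M hM T hT => ?_⟩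
    rw [one_mul]
    exact h M hM T hT

/-- the bad polynomials -/
def Bd (d m B w : ℕ) (A ε : ℝ) (M : ℕ) : Set (Fin (d + 1) → ℤ) :=
  {a | (∀ i, |a i| ≤ M) ∧ ∃ x : ℝ, ∑ i, (a i : ℝ) * x ^ (i : ℕ) = 0 ∧
    ¬ NB B w 0 (A * log M) (ε * log M) (fun j : Fin m => x ^ ((j : ℕ) + 1))}

lemma cube_finite (d M : ℕ) : {a : Fin (d + 1) → ℤ | ∀ i, |a i| ≤ M}.Finite := by
  refine (Fintype.piFinset fun _ : Fin (d + 1) => Finset.Icc (-(M : ℤ)) M).finite_toSet.subset ?_
  intro a ha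
  simp only [Finset.mem_coe, Fintype.mem_piFinset, Finset.mem_Icc]
  exact fun i => abs_le.1 (ha i)

theorem global (hd : 1 ≤ d) (hm : 1 ≤ m) (B w : ℕ) (A ε : ℝ) (hε : 0 < ε) (ζ : ℝ) (hζ : 0 < ζ) :
    ∀ᶠ M : ℕ in atTop, ((Bd d m B w A ε M).ncard : ℝ) ≤ ζ * (M : ℝ) ^ (d + 1) := by
  classical
  -- the case `B = 0`
  rcases Nat.eq_zero_or_pos B with rfl | hB
  · refine Eventually.of_forall fun M => ?_
    have : Bd d m 0 w A ε M = ∅ := by
      rw [Set.eq_empty_iff_forall_notMem]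
      rintro a ⟨-, x, -, hx⟩
      apply hx
      intro b hb
      have := hb ⟨0, hm⟩
      omega
    rw [this, Set.ncard_empty, Nat.cast_zero]
    positivity
  -- the thickening
  have hZb : Bornology.IsBounded (Zs d) := (Cu_bounded d).subset fun c hc => hc.1
  have hZc := Zs_closed hd
  have hvol : Tendsto (fun r => volume (Metric.thickening r (Zs d))) (𝓝[>] 0) (𝓝 0) := by
    have h1 := tendsto_measure_thickening_of_isClosed (μ := (volume : Measure (Fin (d + 1) → ℝ)))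
      ⟨1, one_pos, (hZb.thickening.measure_lt_top).ne⟩ hZc
    rwa [Zs_null hd] at h1
  obtain ⟨t1, ht1, ht1b⟩ : ∃ t1 : ℝ, 0 < t1 ∧ ∀ r : ℝ, 0 < r → r < t1 →
      volume (Metric.thickening r (Zs d)) < ENNReal.ofReal (ζ / 2) := by
    have h1 := hvol.eventually (gt_mem_nhds (show (0 : ENNReal) < ENNReal.ofReal (ζ / 2) by
      rw [ENNReal.ofReal_pos]; positivity))
    rw [eventually_nhdsWithin_iff, Metric.eventually_nhds_iff] at h1
    obtain ⟨t1, ht1, h2⟩ := h1
    refine ⟨t1, ht1, fun r hr hrt => h2 ?_ hr⟩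
    rw [dist_zero_right, Real.norm_eq_abs, abs_of_pos hr]
    exact hrt
  obtain ⟨t, ⟨ht0, htt⟩, htf⟩ := exists_null_frontier_thickening
    (volume : Measure (Fin (d + 1) → ℝ)) (Zs d) (show (0 : ℝ) < min t1 1 from lt_min ht1 one_pos)
  have htt1 : t < t1 := lt_of_lt_of_le htt (min_le_left _ _)
  have htt2 : t < 1 := lt_of_lt_of_le htt (min_le_right _ _)
  set Th := Metric.thickening t (Zs d) with hTh
  have hThv : volume.real Th < ζ / 2 := by
    have h1 := ht1b t ht0 htt1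
    unfold Measure.real
    rw [← ENNReal.toReal_ofReal (show 0 ≤ ζ / 2 by positivity)]
    exact (ENNReal.toReal_lt_toReal (ne_top_of_lt h1) ENNReal.ofReal_ne_top).2 h1
  have hcount := lattice_count Th hZb.thickening Metric.isOpen_thickening.measurableSet htf
  -- the compact set
  set S : Set ((Fin (d + 1) → ℝ) × ℝ) := {v | v.1 ∈ Cu d ∧ v.1 ∉ Th ∧ pv v.1 v.2 = 0} with hS
  have hlast : ∀ c ∈ Cu d, c ∉ Th → t ≤ |c (Fin.last d)| := by
    intro c hc hcT
    by_contra hcon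
    push Not at hcon
    apply hcT
    rw [hTh, Metric.mem_thickening_iff]
    refine ⟨Function.update c (Fin.last d) 0, ⟨fun i => ?_, Or.inr (Or.inl ?_)⟩, ?_⟩
    · by_cases hi : i = Fin.last d
      · subst hi
        rw [Function.update_self, abs_zero]
        exact zero_le_one
      · rw [Function.update_of_ne hi]
        exact hc i
    · rw [Function.update_self]
    · rw [dist_pi_lt_iff ht0]
      intro i
      by_cases hi : i = Fin.last d
      · subst hi
        rw [Function.update_self, Real.dist_eq, sub_zero]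
        exact hcon
      · rw [Function.update_of_ne hi, dist_self]
        exact ht0
  have hScpt : IsCompact S := by
    apply Metric.isCompact_of_isClosed_isBounded
    · have h1 : S = ((Prod.fst ⁻¹' Cu d) ∩ (Prod.fst ⁻¹' Thᶜ)) ∩
          {v : (Fin (d + 1) → ℝ) × ℝ | pv v.1 v.2 = 0} := by
        ext v
        simp only [hS, Set.mem_ofPred_eq, Set.mem_inter_iff, Set.mem_preimage, Set.mem_compl_iff]
        tauto
      rw [h1]
      exact (((Cu_closed d).preimage continuous_fst).inter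
        (Metric.isOpen_thickening.isClosed_compl.preimage continuous_fst)).inter
        (isClosed_eq pv_cont continuous_const)
    · refine ((Cu_bounded d).prod
        (Metric.isBounded_closedBall (x := (0 : ℝ)) (r := (d + 1) / t))).subset ?_
      rintro ⟨c, x⟩ ⟨h1, h2, h3⟩
      refine ⟨h1, ?_⟩
      simp only at h1 h2 h3 ⊢
      rw [Metric.mem_closedBall, dist_zero_right, Real.norm_eq_abs]
      exact root_bound hd h1 ht0 htt2.le (hlast c h1 h2) h3
  have hS2 : ∀ v ∈ S, pv v.1 v.2 = 0 ∧ pd v.1 v.2 ≠ 0 ∧ v.1 0 ≠ 0 := by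
    rintro ⟨c, x⟩ ⟨h1, h2, h3⟩
    simp only at h1 h2 h3 ⊢
    have h4 : c ∉ Zs d := fun h => h2 (Metric.self_subset_thickening ht0 _ h)
    refine ⟨h3, fun h5 => h4 ⟨h1, Or.inr (Or.inr ⟨x, h3, h5⟩)⟩, fun h5 => h4 ⟨h1, Or.inl h5⟩⟩
  -- the small windows
  set κ : ℝ := ε * log 2 / 8 with hκ
  have hl2 : 0 < log 2 := Real.log_pos (by norm_num)
  have hκ0 : 0 < κ := by positivity
  obtain ⟨C, hC, c, hc, M1, hM1⟩ := compact_bad (m := m) hd hm hB (w := w) A (ε / 2) κ
    (by positivity) hκ0 hScpt hS2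
  have hlog : Tendsto (fun M : ℕ => log (M : ℝ)) atTop atTop :=
    Real.tendsto_log_atTop.comp tendsto_natCast_atTop_atTop
  have hcast : Tendsto (fun M : ℕ => (M : ℝ)) atTop atTop := tendsto_natCast_atTop_atTop
  filter_upwards [hcount.eventually (gt_mem_nhds hThv), eventually_ge_atTop M1,
    hlog.eventually_ge_atTop (8 / ε),
    ((tendsto_rpow_atTop hc).comp hcast).eventually_ge_atTop (C / (ζ / 2)),
    hcast.eventually_ge_atTop 1] with M b1 b2 b3 b4 b5
  have hMp : (0 : ℝ) < M := by linarith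
  have hlog0 : 0 ≤ log (M : ℝ) := Real.log_nonneg b5
  -- splitting the bad polynomials
  set T1 : Set (Fin (d + 1) → ℤ) := {a | (fun i => (a i : ℝ) / M) ∈ Th} with hT1
  have hfin : (Bd d m B w A ε M).Finite := (cube_finite d M).subset fun a ha => ha.1
  set T2 : Finset (Fin (d + 1) → ℤ) := hfin.toFinset.filter (fun a => a ∉ T1) with hT2
  have hT1fin : T1.Finite := by
    obtain ⟨R, hR⟩ := (hZb.thickening (δ := t)).subset_closedBall 0
    have h1 : T1 ⊆ {a : Fin (d + 1) → ℤ | ∀ i, |a i| ≤ (⌈|R| * M⌉₊ : ℕ)} := by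
      intro a ha i
      have h2 := hR ha
      rw [Metric.mem_closedBall, dist_zero_right] at h2
      have h3 := (norm_le_pi_norm _ i).trans h2
      rw [Real.norm_eq_abs, abs_div, abs_of_pos hMp, div_le_iff₀ hMp] at h3
      have h4 : |(a i : ℝ)| ≤ (⌈|R| * M⌉₊ : ℝ) := by
        refine h3.trans (le_trans ?_ (Nat.le_ceil _))
        gcongr
        exact le_abs_self R
      have h5 : ((|a i| : ℤ) : ℝ) ≤ (((⌈|R| * M⌉₊ : ℕ) : ℤ) : ℝ) := by
        push_cast
        exact h4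
      exact_mod_cast h5
    exact (cube_finite d _).subset h1
  have hT2b := hM1 M b2 T2 (by
    intro a ha
    rw [hT2, mem_filter, Set.Finite.mem_toFinset] at ha
    obtain ⟨⟨haM, x, hx, hxn⟩, haT⟩ := ha
    have hpvx : pv (fun i => (a i : ℝ) / M) x = 0 := by
      have h1 : pv (fun i => (a i : ℝ) / M) x = (∑ i, (a i : ℝ) * x ^ (i : ℕ)) / M := by
        unfold pv
        rw [Finset.sum_div]
        refine sum_congr rfl fun i _ => ?_
        ring
      rw [h1, hx, zero_div]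
    refine ⟨x, ⟨?_, haT, hpvx⟩, hpvx, ?_⟩
    · intro i
      simp only
      rw [abs_div, abs_of_pos hMp, div_le_one hMp]
      have := haM i
      have h2 : ((|a i| : ℤ) : ℝ) ≤ ((M : ℤ) : ℝ) := by exact_mod_cast this
      push_cast at h2
      exact h2
    · intro hnb
      apply hxn
      refine NB_all hnb (by positivity) (i0 := ⌈κ * log M / log 2⌉₊) ?_ ?_
      · have h1 : κ * log M / log 2 ≤ (⌈κ * log M / log 2⌉₊ : ℝ) := Nat.le_ceil _
        calc (M : ℝ) ^ κ = 2 ^ (κ * log M / log 2) := by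
              rw [Real.rpow_def_of_pos hMp, Real.rpow_def_of_pos (by norm_num)]
              congr 1
              field_simp
          _ ≤ 2 ^ ((⌈κ * log M / log 2⌉₊ : ℕ) : ℝ) :=
              Real.rpow_le_rpow_of_exponent_le (by norm_num) h1
          _ = 2 ^ (⌈κ * log M / log 2⌉₊ : ℕ) := Real.rpow_natCast _ _
      · have h1 : (⌈κ * log M / log 2⌉₊ : ℝ) < κ * log M / log 2 + 1 :=
          Nat.ceil_lt_add_one (by positivity)
        have h2 : κ * log M / log 2 = ε / 8 * log M := by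
          rw [hκ]
          field_simp
        have h3 : 1 ≤ ε / 8 * log M := by
          rw [div_le_iff₀ hε] at b3
          linarith
        rw [h2] at h1
        have h4 : 0 ≤ ε / 8 * log M := by positivity
        rw [h2]
        linarith)
  have hsub : Bd d m B w A ε M ⊆ T1 ∪ (T2 : Set (Fin (d + 1) → ℤ)) := by
    intro a ha
    by_cases h : a ∈ T1
    · exact Or.inl h
    · right
      rw [Finset.mem_coe, hT2, mem_filter, Set.Finite.mem_toFinset]
      exact ⟨ha, h⟩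
  have h1 : ((Bd d m B w A ε M).ncard : ℝ) ≤ (T1.ncard : ℝ) + T2.card := by
    have h2 := (Set.ncard_le_ncard hsub (hT1fin.union T2.finite_toSet)).trans
      (Set.ncard_union_le _ _)
    rw [Set.ncard_coe_finset] at h2
    exact_mod_cast h2
  have h2 : (T1.ncard : ℝ) ≤ ζ / 2 * (M : ℝ) ^ (d + 1) := by
    rw [div_lt_iff₀ (by positivity)] at b1
    exact b1.le
  have h3 : (T2.card : ℝ) ≤ ζ / 2 * (M : ℝ) ^ (d + 1) := by
    refine hT2b.trans ?_
    have h4 : C ≤ ζ / 2 * (M : ℝ) ^ c := by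
      rw [div_le_iff₀ (by positivity)] at b4
      simp only [Function.comp] at b4
      linarith
    calc C * (M : ℝ) ^ ((d : ℝ) + 1 - c) ≤ (ζ / 2 * (M : ℝ) ^ c) * (M : ℝ) ^ ((d : ℝ) + 1 - c) := by
          gcongr
      _ = ζ / 2 * (M : ℝ) ^ (d + 1) := by
          rw [mul_assoc, ← Real.rpow_add hMp, ← Real.rpow_natCast]
          congr 2
          push_cast
          ring
  linarith

end Pool.Agent.Q270.AA
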