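import Pool.Agent.Q270.SP.Piece

/-!
# Exponential sums along lines for functions of several variables

`ψ j k` is the `k`-th derivative of the `j`-th function in the direction of one coordinate, on a
cube. For every unit vector `u` one derivative of large order of `∑ u_j ψ_j` is bounded from below.
-/

set_option autoImplicit false

namespace Pool.Agent.Q270.AA

open Finset Real Filter Topology
open Pool.Agent.H469R2.NK (e norm_e e_add)
open Pool.Agent.Q270.SP (piece)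

variable {n m : ℕ}

/-- the points of the cube -/
def InC (c0 : Fin n → ℝ) (δ : ℝ) (c : Fin n → ℝ) : Prop := ∀ i, |c i - c0 i| ≤ δ

/-- derivatives along the lines in the direction `i1` -/
structure Chain (i1 : Fin n) (c0 : Fin n → ℝ) (δ : ℝ) (K : ℕ)
    (ψ : Fin m → ℕ → (Fin n → ℝ) → ℝ) : Prop where
  der : ∀ j k, ∀ c, InC c0 δ c →
    HasDerivAt (fun s => ψ j k (Function.update c i1 s)) (ψ j (k + 1) c) (c i1)
  bdd : ∀ k, ∃ C : ℝ, ∀ j c, InC c0 δ c → |ψ j k c| ≤ C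
  big : ∃ (F : Finset ℕ) (η : ℝ), 0 < η ∧ (∀ i ∈ F, K ≤ i) ∧ ∀ u : Fin m → ℝ, ‖u‖ = 1 →
    ∃ i ∈ F, ∀ c, InC c0 δ c → η ≤ |∑ j, u j * ψ j i c|

lemma InC_update {i1 : Fin n} {c0 c : Fin n → ℝ} {δ : ℝ} (h : InC c0 δ c) {s : ℝ}
    (hs : |s - c0 i1| ≤ δ) : InC c0 δ (Function.update c i1 s) := by
  intro i
  by_cases hi : i = i1
  · subst hi
    rw [Function.update_self]
    exact hs
  · rw [Function.update_of_ne hi]
    exact h i

theorem line_sum {i1 : Fin n} {c0 : Fin n → ℝ} {δ : ℝ} {K : ℕ}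
    {ψ : Fin m → ℕ → (Fin n → ℝ) → ℝ} (H : Chain i1 c0 δ K ψ) (κ A : ℝ) (hκ : 0 < κ)
    (hK3 : 3 ≤ K) (hKA : A + 2 ≤ K) :
    ∃ ρ : ℝ, 0 < ρ ∧ ∃ M0 : ℕ, ∀ M : ℕ, M0 ≤ M → ∀ l : Fin m → ℝ, (M : ℝ) ^ κ ≤ ‖l‖ →
      ‖l‖ ≤ (M : ℝ) ^ A → ∀ c : Fin n → ℝ, InC c0 δ c → ∀ (p : ℤ) (ℓ : ℕ), ℓ ≤ M →
      |(p : ℝ) / M - c0 i1| ≤ δ → |((p : ℝ) + ℓ) / M - c0 i1| ≤ δ →
      ‖∑ t ∈ range ℓ, e (∑ j, l j * ψ j 0 (Function.update c i1 (((p : ℝ) + t) / M)))‖ ≤
        (M : ℝ) ^ (1 - ρ) := by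
  classical
  obtain ⟨F, η, hη, hFK, hbig⟩ := H.big
  choose C0 hC0 using H.bdd
  set μ : ℝ := min (1 / 4) (κ / 2) with hμ
  have hμ0 : 0 < μ := lt_min (by norm_num) (by positivity)
  have hμ4 : μ ≤ 1 / 4 := min_le_left _ _
  have hμκ : μ ≤ κ / 2 := min_le_right _ _
  have hone : ∀ i : ℕ, ∃ ρ : ℝ, 0 < ρ ∧ ∃ M0 : ℕ, i ∈ F → ∀ M : ℕ, M0 ≤ M →
      ∀ l : Fin m → ℝ, (M : ℝ) ^ κ ≤ ‖l‖ → ‖l‖ ≤ (M : ℝ) ^ A →
      (∀ c, InC c0 δ c → η ≤ |∑ j, (l j / ‖l‖) * ψ j i c|) →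
      ∀ c : Fin n → ℝ, InC c0 δ c → ∀ (p : ℤ) (ℓ : ℕ), ℓ ≤ M →
      |(p : ℝ) / M - c0 i1| ≤ δ → |((p : ℝ) + ℓ) / M - c0 i1| ≤ δ →
      ‖∑ t ∈ range ℓ, e (∑ j, l j * ψ j 0 (Function.update c i1 (((p : ℝ) + t) / M)))‖ ≤
        (M : ℝ) ^ (1 - ρ) := by
    intro i
    by_cases hiF : i ∈ F
    swap
    · exact ⟨1, one_pos, 0, fun h => absurd h hiF⟩
    have hi := hFK i hiF
    obtain ⟨K1, hK1⟩ : ∃ K1 : ℕ, i = K1 + 2 := ⟨i - 2, by omega⟩
    subst hK1
    obtain ⟨ρ, hρ, M0, hM0⟩ := piece K1 (by omega) μ hμ0 hμ4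
    set C : ℝ := max 1 (m * |C0 (K1 + 1)|) with hC
    have hC1 : 1 ≤ C := le_max_left _ _
    set ρ' : ℝ := min (ρ / 2) (μ / 8) with hρ'
    have hρ'0 : 0 < ρ' := lt_min (by positivity) (by positivity)
    have hρ'1 : ρ' ≤ ρ / 2 := min_le_left _ _
    have hρ'2 : ρ' ≤ μ / 8 := min_le_right _ _
    have hev : ∀ᶠ x : ℝ in atTop, C ≤ x ^ (1 - μ) ∧ 6 ≤ x ^ (ρ / 2) ∧
        6 * (C / η) ≤ x ^ (μ / 8) ∧ 12 ≤ x ^ (1 - ρ') ∧ 1 ≤ x := by
      filter_upwards [(tendsto_rpow_atTop (show (0 : ℝ) < 1 - μ by linarith)).eventually_ge_atTop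
        C, (tendsto_rpow_atTop (show (0 : ℝ) < ρ / 2 by positivity)).eventually_ge_atTop 6,
        (tendsto_rpow_atTop (show (0 : ℝ) < μ / 8 by positivity)).eventually_ge_atTop
          (6 * (C / η)),
        (tendsto_rpow_atTop (show (0 : ℝ) < 1 - ρ' by linarith)).eventually_ge_atTop 12,
        eventually_ge_atTop (1 : ℝ)] with x a1 a2 a3 a4 a5
      exact ⟨a1, a2, a3, a4, a5⟩
    obtain ⟨x₁, hx₁⟩ := eventually_atTop.mp hev
    refine ⟨ρ', hρ'0, max M0 ⌈x₁⌉₊, fun _ => ?_⟩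
    intro M hM l hl1 hl2 hlow c hc p ℓ hℓM hp hpℓ
    obtain ⟨a1, a2, a3, a4, a5⟩ := hx₁ M (Nat.ceil_le.mp (le_of_max_le_right hM))
    have hMp : (0 : ℝ) < M := by linarith
    set T : ℝ := ‖l‖ with hT
    have hT0 : 0 < T := lt_of_lt_of_le (by positivity) hl1
    set u : Fin m → ℝ := fun j => l j / T with hu
    have hul : ∀ j, |u j| ≤ 1 := by
      intro j
      rw [hu]
      simp only
      rw [abs_div, abs_of_pos hT0, div_le_one hT0, hT, ← Real.norm_eq_abs]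
      exact norm_le_pi_norm l j
    set φ : ℕ → ℝ → ℝ := fun k t => T * ((M : ℝ)⁻¹) ^ k *
      ∑ j, u j * ψ j k (Function.update c i1 (t / M)) with hφ
    have hin : ∀ t ∈ Set.Icc (p : ℝ) (p + ℓ), |t / M - c0 i1| ≤ δ := by
      intro t ht
      rw [abs_le] at hp hpℓ ⊢
      have h1 : (p : ℝ) / M ≤ t / M := div_le_div_of_nonneg_right ht.1 hMp.le
      have h2 : t / M ≤ ((p : ℝ) + ℓ) / M := div_le_div_of_nonneg_right ht.2 hMp.le
      constructor <;> linarith [hp.1, hpℓ.2]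
    have hder : ∀ k, ∀ t ∈ Set.Icc (p : ℝ) (p + ℓ), HasDerivAt (φ k) (φ (k + 1) t) t := by
      intro k t ht
      have h1 : ∀ j, HasDerivAt (fun t => u j * ψ j k (Function.update c i1 (t / M)))
          (u j * (ψ j (k + 1) (Function.update c i1 (t / M)) * (1 / M))) t := by
        intro j
        have h2 := H.der j k (Function.update c i1 (t / M)) (InC_update hc (hin t ht))
        rw [Function.update_self] at h2
        have h3 : HasDerivAt (fun t : ℝ => t / M) (1 / M) t := (hasDerivAt_id t).div_const _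
        have h4 := HasDerivAt.comp t h2 h3
        have h5 : ((fun s => ψ j k (Function.update (Function.update c i1 (t / M)) i1 s)) ∘
            fun t : ℝ => t / M) = fun t => ψ j k (Function.update c i1 (t / M)) := by
          funext s
          simp only [Function.comp, Function.update_idem]
        rw [h5] at h4
        exact h4.const_mul _
      have h6 := (HasDerivAt.fun_sum fun j (_ : j ∈ (univ : Finset (Fin m))) => h1 j).const_mul
        (T * ((M : ℝ)⁻¹) ^ k)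
      refine h6.congr_deriv ?_
      rw [hφ]
      simp only
      rw [pow_succ, mul_sum, mul_sum]
      refine sum_congr rfl fun j _ => ?_
      rw [one_div]
      ring
    have hMpow : ∀ k : ℕ, ((M : ℝ)⁻¹) ^ k = (M : ℝ) ^ (-(k : ℝ)) := by
      intro k
      rw [inv_pow, Real.rpow_neg hMp.le, Real.rpow_natCast]
    set s : ℝ := T * (M : ℝ) ^ (-((K1 + 2 : ℕ) : ℝ)) * η with hs
    set hi' : ℝ := T * (M : ℝ) ^ (-((K1 + 1 : ℕ) : ℝ)) * C with hhi
    set t₀ : ℝ := hi' * (M : ℝ) ^ (-(μ / 4)) with ht₀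
    have hs0 : 0 < s := by positivity
    have hhi0 : 0 < hi' := by positivity
    have ht₀0 : 0 < t₀ := by positivity
    have key := hM0 M (le_of_max_le_left hM) p s t₀ hi' ℓ φ hs0 ht₀0 hℓM hder ?_ ?_ ?_ ?_ ?_
    · have h1 : ∑ t ∈ range ℓ, e (∑ j, l j * ψ j 0 (Function.update c i1 (((p : ℝ) + t) / M))) =
          ∑ t ∈ range ℓ, e (φ 0 ((p : ℝ) + t)) := by
        refine sum_congr rfl fun t _ => ?_
        congr 1
        rw [hφ]
        simp only [pow_zero, mul_one]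
        rw [mul_sum]
        refine sum_congr rfl fun j _ => ?_
        rw [hu]
        field_simp
      rw [h1]
      refine key.trans ?_
      have h2 : 2 * t₀ / s = 2 * (C / η) * (M : ℝ) ^ (1 - μ / 4) := by
        have h3 : t₀ = T * (M : ℝ) ^ (-((K1 + 2 : ℕ) : ℝ)) * C * (M : ℝ) ^ (1 - μ / 4) := by
          rw [ht₀, hhi]
          have h4 : (M : ℝ) ^ (-((K1 + 1 : ℕ) : ℝ)) * (M : ℝ) ^ (-(μ / 4)) =
              (M : ℝ) ^ (-((K1 + 2 : ℕ) : ℝ)) * (M : ℝ) ^ (1 - μ / 4) := by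
            rw [← Real.rpow_add hMp, ← Real.rpow_add hMp]
            congr 1
            push_cast
            ring
          calc T * (M : ℝ) ^ (-((K1 + 1 : ℕ) : ℝ)) * C * (M : ℝ) ^ (-(μ / 4)) =
                T * C * ((M : ℝ) ^ (-((K1 + 1 : ℕ) : ℝ)) * (M : ℝ) ^ (-(μ / 4))) := by ring
            _ = _ := by rw [h4]; ring
        rw [h3, hs]
        field_simp
      rw [h2]
      have h3 : 2 * (M : ℝ) ^ (1 - ρ) ≤ (M : ℝ) ^ (1 - ρ') / 3 := by
        have h4 : 6 * (M : ℝ) ^ (1 - ρ) ≤ (M : ℝ) ^ (1 - ρ') := by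
          calc 6 * (M : ℝ) ^ (1 - ρ) ≤ (M : ℝ) ^ (ρ / 2) * (M : ℝ) ^ (1 - ρ) := by gcongr
            _ = (M : ℝ) ^ (1 - ρ / 2) := by
                rw [← Real.rpow_add hMp]
                congr 1
                ring
            _ ≤ _ := Real.rpow_le_rpow_of_exponent_le a5 (by linarith)
        linarith
      have h5 : 2 * (C / η) * (M : ℝ) ^ (1 - μ / 4) ≤ (M : ℝ) ^ (1 - ρ') / 3 := by
        have h4 : 6 * (C / η) * (M : ℝ) ^ (1 - μ / 4) ≤ (M : ℝ) ^ (1 - ρ') := by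
          calc 6 * (C / η) * (M : ℝ) ^ (1 - μ / 4) ≤
                (M : ℝ) ^ (μ / 8) * (M : ℝ) ^ (1 - μ / 4) := by gcongr
            _ = (M : ℝ) ^ (1 - μ / 8) := by
                rw [← Real.rpow_add hMp]
                congr 1
                ring
            _ ≤ _ := Real.rpow_le_rpow_of_exponent_le a5 (by linarith)
        linarith
      linarith
    · intro t ht
      have h1 := hlow (Function.update c i1 (t / M)) (InC_update hc (hin t ht))
      have h2 : |φ (K1 + 2) t| = T * (M : ℝ) ^ (-((K1 + 2 : ℕ) : ℝ)) *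
          |∑ j, u j * ψ j (K1 + 2) (Function.update c i1 (t / M))| := by
        rw [hφ]
        simp only
        rw [abs_mul, hMpow, abs_of_pos (by positivity)]
      rw [h2, hs]
      gcongr
    · intro t ht
      have h2 : |φ (K1 + 1) t| = T * (M : ℝ) ^ (-((K1 + 1 : ℕ) : ℝ)) *
          |∑ j, u j * ψ j (K1 + 1) (Function.update c i1 (t / M))| := by
        rw [hφ]
        simp only
        rw [abs_mul, hMpow, abs_of_pos (by positivity)]
      rw [h2, hhi]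
      gcongr
      calc |∑ j, u j * ψ j (K1 + 1) (Function.update c i1 (t / M))| ≤
            ∑ j, |u j * ψ j (K1 + 1) (Function.update c i1 (t / M))| := abs_sum_le_sum_abs _ _
        _ ≤ ∑ _j : Fin m, |C0 (K1 + 1)| := by
            refine sum_le_sum fun j _ => ?_
            rw [abs_mul]
            have h3 := hC0 (K1 + 1) j (Function.update c i1 (t / M)) (InC_update hc (hin t ht))
            calc |u j| * |ψ j (K1 + 1) (Function.update c i1 (t / M))| ≤ 1 * |C0 (K1 + 1)| :=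
                  mul_le_mul (hul j) (h3.trans (le_abs_self _)) (abs_nonneg _) zero_le_one
              _ = _ := one_mul _
        _ = m * |C0 (K1 + 1)| := by
            rw [sum_const, card_univ, Fintype.card_fin, nsmul_eq_mul]
        _ ≤ C := le_max_right _ _
    · rw [ht₀, mul_assoc, ← Real.rpow_add hMp]
      rw [show -(μ / 4) + μ / 4 = 0 by ring, Real.rpow_zero, mul_one]
    · rw [ht₀, hhi]
      have hK2 : A + 1 ≤ ((K1 + 1 : ℕ) : ℝ) := by
        have : (K : ℝ) ≤ ((K1 + 2 : ℕ) : ℝ) := by exact_mod_cast hi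
        push_cast at this ⊢
        linarith
      calc T * (M : ℝ) ^ (-((K1 + 1 : ℕ) : ℝ)) * C * (M : ℝ) ^ (-(μ / 4)) ≤
            (M : ℝ) ^ A * (M : ℝ) ^ (-((K1 + 1 : ℕ) : ℝ)) * (M : ℝ) ^ (1 - μ) * 1 := by
            gcongr
            exact Real.rpow_le_one_of_one_le_of_nonpos a5 (by linarith)
        _ = (M : ℝ) ^ (A - ((K1 + 1 : ℕ) : ℝ) + 1 - μ) := by
            rw [mul_one, ← Real.rpow_add hMp, ← Real.rpow_add hMp]
            congr 1
            ring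
        _ ≤ (M : ℝ) ^ (-μ) := Real.rpow_le_rpow_of_exponent_le a5 (by linarith)
    · rw [ht₀, hhi]
      calc (M : ℝ) ^ (-((K1 : ℝ) + 1) + μ) ≤
            (M : ℝ) ^ (κ + -((K1 + 1 : ℕ) : ℝ) + -(μ / 4)) := by
            apply Real.rpow_le_rpow_of_exponent_le a5
            push_cast
            linarith
        _ = (M : ℝ) ^ κ * (M : ℝ) ^ (-((K1 + 1 : ℕ) : ℝ)) * 1 * (M : ℝ) ^ (-(μ / 4)) := by
            rw [Real.rpow_add hMp, Real.rpow_add hMp, mul_one]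
        _ ≤ T * (M : ℝ) ^ (-((K1 + 1 : ℕ) : ℝ)) * C * (M : ℝ) ^ (-(μ / 4)) := by gcongr
  choose ρ hρ M0 hM0 using hone
  have hFne : (insert 0 F).Nonempty := Finset.insert_nonempty _ _
  refine ⟨(insert 0 F).inf' hFne ρ, (Finset.lt_inf'_iff _).2 fun i _ => hρ i,
    max 1 ((insert 0 F).sup M0), ?_⟩
  intro M hM l hl1 hl2 c hc p ℓ hℓM hp hpℓ
  have hM1 : (1 : ℝ) ≤ M := by exact_mod_cast le_of_max_le_left hM
  have hMp : (0 : ℝ) < M := by linarith
  have hT0 : 0 < ‖l‖ := lt_of_lt_of_le (by positivity) hl1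
  obtain ⟨i, hiF, hi⟩ := hbig (fun j => l j / ‖l‖) (by
    have h1 : (fun j => l j / ‖l‖) = ‖l‖⁻¹ • l := by
      funext j
      rw [Pi.smul_apply, smul_eq_mul, div_eq_inv_mul]
    rw [h1, norm_smul, norm_inv, norm_norm, inv_mul_cancel₀ hT0.ne'])
  have him : i ∈ insert 0 F := Finset.mem_insert_of_mem hiF
  refine (hM0 i hiF M ((Finset.le_sup him).trans (le_of_max_le_right hM)) l hl1 hl2 hi c hc p ℓ
    hℓM hp hpℓ).trans ?_
  apply Real.rpow_le_rpow_of_exponent_le hM1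
  have := Finset.inf'_le ρ him
  linarith

end Pool.Agent.Q270.AA
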