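import Pool.Agent.Q270.AA.Ana

/-!
# The real roots of a polynomial as analytic functions of the coefficients
-/

set_option autoImplicit false

namespace Pool.Agent.Q270.AA

open Finset Real Filter Topology
open scoped ContDiff

variable {d : ℕ}

/-- the value at `x` of the polynomial with the coefficients `c` -/
noncomputable def pv (c : Fin (d + 1) → ℝ) (x : ℝ) : ℝ := ∑ i, c i * x ^ (i : ℕ)

/-- the derivative -/
noncomputable def pd (c : Fin (d + 1) → ℝ) (x : ℝ) : ℝ :=
  ∑ i, c i * ((i : ℕ) * x ^ ((i : ℕ) - 1))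

lemma pv_deriv (c : Fin (d + 1) → ℝ) (x : ℝ) : HasDerivAt (pv c) (pd c x) x := by
  unfold pv pd
  refine HasDerivAt.fun_sum fun i _ => ?_
  exact (hasDerivAt_pow _ x).const_mul _

lemma pv_contDiff : ContDiff ℝ ω (fun v : (Fin (d + 1) → ℝ) × ℝ => pv v.1 v.2) := by
  unfold pv
  refine ContDiff.sum fun i _ => ?_
  have h1 : ContDiff ℝ ω (fun v : (Fin (d + 1) → ℝ) × ℝ => v.1 i) := by
    have : ContDiff ℝ ω (fun c : Fin (d + 1) → ℝ => c i) := contDiff_apply ℝ ℝ i
    exact this.comp contDiff_fst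
  exact h1.mul (contDiff_snd.pow _)

/-- the local root -/
theorem local_root {c0 : Fin (d + 1) → ℝ} {x0 : ℝ} (h0 : pv c0 x0 = 0) (h1 : pd c0 x0 ≠ 0) :
    ∃ Φ : (Fin (d + 1) → ℝ) → ℝ, AnalyticAt ℝ Φ c0 ∧ Φ c0 = x0 ∧
      (∀ᶠ c in 𝓝 c0, pv c (Φ c) = 0) ∧
      ∀ᶠ v in 𝓝 (c0, x0), pv v.1 v.2 = 0 → v.2 = Φ v.1 := by
  set f : (Fin (d + 1) → ℝ) × ℝ → ℝ := fun v => pv v.1 v.2 with hf
  have hcd : ContDiffAt ℝ ω f (c0, x0) := pv_contDiff.contDiffAt
  have hω : (ω : WithTop ℕ∞) ≠ 0 := by decide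
  have hfd : HasFDerivAt f (fderiv ℝ f (c0, x0)) (c0, x0) :=
    (hcd.differentiableAt hω).hasFDerivAt
  have hval : (fderiv ℝ f (c0, x0)) (0, 1) = pd c0 x0 := by
    have h2 : HasDerivAt (fun x : ℝ => (c0, x)) ((0 : Fin (d + 1) → ℝ), (1 : ℝ)) x0 :=
      (hasDerivAt_const x0 c0).prodMk (hasDerivAt_id x0)
    have h3 := hfd.comp_hasDerivAt x0 h2
    exact h3.unique (pv_deriv c0 x0)
  have hinv : (fderiv ℝ f (c0, x0) ∘L .inr ℝ (Fin (d + 1) → ℝ) ℝ).IsInvertible := by
    refine ⟨ContinuousLinearEquiv.unitsEquivAut ℝ (Units.mk0 (pd c0 x0) h1), ?_⟩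
    ext
    simp [hval]
  refine ⟨hcd.implicitFunction hω hinv, ?_, ?_, ?_, ?_⟩
  · have h2 := hcd.contDiffAt_implicitFunction hω hinv
    exact h2.analyticAt
  · exact hcd.implicitFunction_apply_self hω hinv
  · filter_upwards [hcd.eventually_apply_implicitFunction hω hinv] with c hc
    have h2 : f (c0, x0) = 0 := h0
    rw [h2] at hc
    exact hc
  · filter_upwards [hcd.eventually_apply_eq_iff_implicitFunction hω hinv] with v hv hv0
    have h2 : f (c0, x0) = 0 := h0
    rw [h2] at hv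
    exact (hv.1 hv0).symm

/-- the powers of the root are linearly independent modulo polynomials along a line -/
theorem root_nondeg {c0 : Fin (d + 1) → ℝ} (hd : 1 ≤ d) (hc0 : c0 0 ≠ 0)
    {Φ : (Fin (d + 1) → ℝ) → ℝ} (hΦ : ∀ᶠ c in 𝓝 c0, pv c (Φ c) = 0) {m : ℕ} (u : Fin m → ℝ)
    (hu : u ≠ 0) (p : Polynomial ℝ) :
    ¬ ∀ᶠ s in 𝓝 (c0 1), ∑ j : Fin m, u j * Φ (Function.update c0 1 s) ^ ((j : ℕ) + 1) =
      p.eval s := by
  classical
  intro hp
  have h11 : ((1 : Fin (d + 1)) : ℕ) = 1 := by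
    show 1 % (d + 1) = 1
    exact Nat.mod_eq_of_lt (by omega)
  have h10 : (1 : Fin (d + 1)) ≠ 0 := by
    intro h
    rw [h] at h11
    simp at h11
  have hup : Tendsto (Function.update c0 1) (𝓝 (c0 1)) (𝓝 c0) := by
    have : ContinuousAt (Function.update c0 1) (c0 1) := by fun_prop
    have h2 := this.tendsto
    rwa [Function.update_eq_self] at h2
  set Q0 : Polynomial ℝ := ∑ i ∈ univ.erase (1 : Fin (d + 1)),
    Polynomial.C (c0 i) * Polynomial.X ^ (i : ℕ) with hQ0
  have hQ0ev : ∀ x : ℝ, Q0.eval x = ∑ i ∈ univ.erase (1 : Fin (d + 1)), c0 i * x ^ (i : ℕ) := by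
    intro x
    rw [hQ0, Polynomial.eval_finsetSum]
    simp
  have hQ00 : Q0.eval 0 = c0 0 := by
    rw [hQ0ev]
    rw [sum_eq_single_of_mem (0 : Fin (d + 1)) (mem_erase.2 ⟨Ne.symm h10, mem_univ _⟩)]
    · simp
    · intro i _ hi
      have : (i : ℕ) ≠ 0 := by
        intro h
        exact hi (Fin.ext h)
      rw [zero_pow this, mul_zero]
  have hpv : ∀ s x : ℝ, pv (Function.update c0 1 s) x = Q0.eval x + s * x := by
    intro s x
    unfold pv
    rw [← Finset.add_sum_erase univ _ (mem_univ (1 : Fin (d + 1))), Function.update_self, h11,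
      pow_one, hQ0ev, add_comm]
    congr 1
    refine sum_congr rfl fun i hi => ?_
    rw [Function.update_of_ne (Finset.ne_of_mem_erase hi)]
  -- the values
  obtain ⟨ε, hε, hεs⟩ := Metric.eventually_nhds_iff_ball.1 ((hup.eventually hΦ).and hp)
  set X : ℝ → ℝ := fun s => Φ (Function.update c0 1 s) with hX
  have hrel : ∀ s ∈ Metric.ball (c0 1) ε, Q0.eval (X s) + s * X s = 0 := by
    intro s hs
    rw [← hpv]
    exact (hεs s hs).1
  have hX0 : ∀ s ∈ Metric.ball (c0 1) ε, X s ≠ 0 := by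
    intro s hs h2
    have h3 := hrel s hs
    rw [h2, hQ00, mul_zero, add_zero] at h3
    exact hc0 h3
  have hinj : Set.InjOn X (Metric.ball (c0 1) ε) := by
    intro s hs t ht hst
    have h3 := hrel s hs
    have h4 := hrel t ht
    rw [hst] at h3
    have h5 : (s - t) * X t = 0 := by linarith
    rcases mul_eq_zero.1 h5 with h6 | h6
    · linarith
    · exact absurd h6 (hX0 t ht)
  have hinf : (X '' Metric.ball (c0 1) ε).Infinite := by
    rw [Set.infinite_image_iff hinj]
    have h2 : (Metric.ball (c0 1) ε) = Set.Ioo (c0 1 - ε) (c0 1 + ε) := Real.ball_eq_Ioo _ _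
    rw [h2]
    exact Set.Ioo_infinite (by linarith)
  -- the polynomial identity
  set N : ℕ := p.natDegree with hN
  set Lp : Polynomial ℝ := ∑ j : Fin m, Polynomial.C (u j) * Polynomial.X ^ ((j : ℕ) + 1) with hLp
  set R : Polynomial ℝ := ∑ k ∈ range (N + 1), Polynomial.C (p.coeff k) * (-Q0) ^ k *
    Polynomial.X ^ (N - k) with hR
  have hid : Polynomial.X ^ N * Lp = R := by
    apply Polynomial.eq_of_infinite_eval_eq
    refine hinf.mono ?_
    rintro _ ⟨s, hs, rfl⟩
    simp only [Set.mem_ofPred_eq]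
    have h2 := (hεs s hs).2
    have h3 : s = -Q0.eval (X s) / X s := by
      rw [eq_div_iff (hX0 s hs)]
      linarith [hrel s hs]
    have h4 : Lp.eval (X s) = p.eval s := by
      rw [hLp, Polynomial.eval_finsetSum, ← h2]
      simp only [Polynomial.eval_mul, Polynomial.eval_C, Polynomial.eval_pow, Polynomial.eval_X]
      rfl
    rw [Polynomial.eval_mul, Polynomial.eval_pow, Polynomial.eval_X, h4, hR,
      Polynomial.eval_finsetSum, Polynomial.eval_eq_sum_range, mul_sum]
    refine sum_congr rfl fun k hk => ?_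
    have hkN : k ≤ N := by
      have := mem_range.1 hk
      omega
    simp only [Polynomial.eval_mul, Polynomial.eval_C, Polynomial.eval_pow, Polynomial.eval_X,
      Polynomial.eval_neg]
    have h5 : X s ^ N = X s ^ k * X s ^ (N - k) := by
      rw [← pow_add]
      congr 1
      omega
    have h6 : X s * s = -Q0.eval (X s) := by linarith [hrel s hs]
    rw [h5, ← h6, mul_pow]
    ring
  have hLp0 : Lp.eval 0 = 0 := by
    rw [hLp, Polynomial.eval_finsetSum]
    simp
  rcases Nat.eq_zero_or_pos N with hN0 | hN0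
  · have h2 : Lp = Polynomial.C (p.coeff 0) := by
      have h3 : R = Polynomial.C (p.coeff 0) := by
        rw [hR, hN0]
        simp
      rw [← h3, ← hid, hN0]
      simp
    have h3 : p.coeff 0 = 0 := by
      rw [h2, Polynomial.eval_C] at hLp0
      exact hLp0
    rw [h3, Polynomial.C_0] at h2
    apply hu
    funext j
    have h4 := congrArg (fun q => q.coeff ((j : ℕ) + 1)) h2
    simp only [hLp, Polynomial.finsetSum_coeff, Polynomial.coeff_C_mul_X_pow,
      Polynomial.coeff_zero] at h4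
    rw [sum_eq_single_of_mem j (mem_univ j)] at h4
    · simpa using h4
    · intro i _ hi
      rw [if_neg]
      intro h5
      exact hi (Fin.ext (by omega))
  · have h2 := congrArg (Polynomial.eval 0) hid
    rw [Polynomial.eval_mul, hLp0, mul_zero, hR, Polynomial.eval_finsetSum,
      Finset.sum_range_succ] at h2
    rw [Finset.sum_eq_zero, zero_add] at h2
    · simp only [Polynomial.eval_mul, Polynomial.eval_C, Polynomial.eval_pow, Polynomial.eval_X,
        Polynomial.eval_neg, Nat.sub_self, pow_zero, mul_one, hQ00] at h2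
      have h3 : p.coeff N ≠ 0 := by
        rw [hN]
        have : p ≠ 0 := by
          rintro rfl
          rw [hN, Polynomial.natDegree_zero] at hN0
          omega
        exact Polynomial.leadingCoeff_ne_zero.2 this
      exact mul_ne_zero h3 (pow_ne_zero _ (neg_ne_zero.2 hc0)) h2.symm
    · intro k hk
      have hk' := mem_range.1 hk
      simp only [Polynomial.eval_mul, Polynomial.eval_pow, Polynomial.eval_X]
      rw [zero_pow (by omega), mul_zero]

end Pool.Agent.Q270.AA
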